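import Pool.Agent.Helper44.RC.M_FX4
import Pool.Agent.Helper20.RC.RqOf2
import Pool.Agent.Helper49.RC.Final

/-!
# Project SHARP (MP_b21509_co): the glue of the near part

`rq_final`: `Rq 2 1` from zone I (`StZ1`), the region fact (`StRegion`), finitely or infinitely many cells (`Cell`) and
the two coverings (`Cov1`, `Cov2`). `cell_of`, `cell_one`: a cell from one or two certificates with a multiplier of the
near condition; `SpL` is the quadratic lower bound of `Sp` which is used there.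
-/

set_option autoImplicit false

open MeasureTheory Set Filter Metric

namespace Helper56.SH

open Helper49.LT hiding sg
open Helper49.RC Helper44.GQ Helper49.Sharp
open Helper56.RC (fc)
open Helper44.Far (Near)
open Pool.Agent.Helper20.RC (wR wR_wgt Goal goal_of_par goal_shift norm_fcshift fcshift)

/-- there is a certificate for `(b, z)` -/
def Cert (b z : ℝ → ℂ) : Prop := ∃ P : Par, P.Good b z ∧ 0 ≤ P.EP b z

/-- the shape of zone I: `|A| + (8/5) |B| ≤ R` (`x = |A|`, `y = |B|`) -/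
def ZI (R x y : ℝ) : Prop := x + 8 / 5 * y ≤ R

/-- ZONE I with the radius `R` -/
def StZ1 (R : ℝ) : Prop := ∀ b z : ℝ → ℂ, AdmQ 2 b z → Near b z → fc z (-3) = (‖fc z (-3)‖ : ℂ) →
  ZI R ‖fc z (-3)‖ ‖fc z (-5)‖ → Cert b z

theorem StZ1.mono {R R' : ℝ} (h : StZ1 R) (hR : R' ≤ R) : StZ1 R' := fun b z ha hn hA hz =>
  h b z ha hn hA (le_trans hz hR)

/-- a cell: there are certificates for all near data with `0 ≤ p A B` -/
def Cell (p : ℂ → ℂ → ℝ) : Prop := ∀ b z : ℝ → ℂ, AdmQ 2 b z → Near b z →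
  0 ≤ p (fc z (-3)) (fc z (-5)) → Cert b z

/-- REGION (helper51) -/
def StRegion : Prop := ∀ b z : ℝ → ℂ, AdmQ 2 b z → Near b z →
  ‖fc z (-3)‖ ^ 2 + ‖fc z (-5)‖ ^ 2 < (73 / 100) ^ 2

/-- the covering of sector 1 outside of zone I: `B = X + i Y` -/
def Cov1 {ι : Type} (R : ℝ) (p : ι → ℂ → ℂ → ℝ) : Prop := ∀ A X Y : ℝ, 0 ≤ A → X ^ 2 + Y ^ 2 ≤ 4 * A ^ 2 →
  0 ≤ Y → 0 ≤ X → Y ^ 2 ≤ 3 * X ^ 2 → A ^ 2 + X ^ 2 + Y ^ 2 < (73 / 100) ^ 2 →
  R < A + 8 / 5 * Real.sqrt (X ^ 2 + Y ^ 2) → ∃ i, 0 ≤ p i (A : ℂ) ((X : ℂ) + (Y : ℂ) * Complex.I)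

/-- the covering of sector 2 outside of zone I: `A = X + i Y` -/
def Cov2 {ι : Type} (R : ℝ) (p : ι → ℂ → ℂ → ℝ) : Prop := ∀ B X Y : ℝ, 0 ≤ B → 4 * (X ^ 2 + Y ^ 2) < B ^ 2 →
  0 ≤ Y → Y ≤ 727 / 1000 * X → B ^ 2 + X ^ 2 + Y ^ 2 < (73 / 100) ^ 2 →
  R < Real.sqrt (X ^ 2 + Y ^ 2) + 8 / 5 * B → ∃ i, 0 ≤ p i ((X : ℂ) + (Y : ℂ) * Complex.I) (B : ℂ)

theorem far_goal {b z : ℝ → ℂ} (h : AdmQ 2 b z) (hn : ¬ Near b z) : Goal 2 1 b z :=
  ⟨wR 0 0 0, wR_wgt (by simp), Helper44.Far.hFARX b z h (not_lt.1 hn)⟩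

/-- zone I for every rotation -/
theorem goal_z1 {R : ℝ} (hI : StZ1 R) {b z : ℝ → ℂ} (h : AdmQ 2 b z) (hz : ZI R ‖fc z (-3)‖ ‖fc z (-5)‖) :
    Goal 2 1 b z := by
  have z2 := Pool.Agent.Helper20.RC.per2 h.perz
  obtain ⟨τ, hτ⟩ := Pool.Agent.Helper35.RC.exists_rot (fc z (-3)) (-3) (by norm_num)
  apply goal_shift h τ
  have h' := Pool.Agent.Helper35.RC.admQ_shift h τ
  by_cases hn : Near (fun t => b (t + τ)) (fun t => z (t + τ))
  · refine goal_of_par h' (hI _ _ h' hn ?_ ?_)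
    · show fc (fun t => z (t + τ)) (-3) = (‖fc (fun t => z (t + τ)) (-3)‖ : ℂ)
      rw [norm_fcshift z2, fcshift z2, hτ]
    · show ZI R ‖fc (fun t => z (t + τ)) (-3)‖ ‖fc (fun t => z (t + τ)) (-5)‖
      rw [norm_fcshift z2, norm_fcshift z2]
      exact hz
  · exact far_goal h' hn

/-- **the assembly** -/
theorem rq_final {R : ℝ} {ι κ : Type} {p : ι → ℂ → ℂ → ℝ} {q : κ → ℂ → ℂ → ℝ} (hR : StRegion) (hI : StZ1 R)
    (c1 : ∀ i, Cell (p i)) (v1 : Cov1 R p) (c2 : ∀ i, Cell (q i)) (v2 : Cov2 R q) : Rq 2 1 := by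
  refine Pool.Agent.Helper20.RC.rq_sym2 (by norm_num) 2 ?_ ?_
  · intro b z h hr hA i1 i2
    by_cases hz : ZI R ‖fc z (-3)‖ ‖fc z (-5)‖
    · exact goal_z1 hI h hz
    by_cases hn : Near b z
    · have hreg := hR b z h hn
      set a := ‖fc z (-3)‖ with ha
      set B := fc z (-5) with hB
      have ha0 : 0 ≤ a := norm_nonneg _
      have hX : 0 ≤ B.re := by
        have h3 : 0 < Real.sqrt 3 := by positivity
        have : 0 ≤ Real.sqrt 3 * B.re := i1.trans i2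
        exact nonneg_of_mul_nonneg_right this h3
      have hn2 : ‖B‖ ^ 2 = B.re ^ 2 + B.im ^ 2 := by
        rw [← Complex.normSq_eq_norm_sq, Complex.normSq_apply]; ring
      have hsq : Real.sqrt (B.re ^ 2 + B.im ^ 2) = ‖B‖ := by
        rw [← hn2, Real.sqrt_sq (norm_nonneg _)]
      obtain ⟨i, hi⟩ := v1 a B.re B.im ha0 (by
          rw [← hn2]
          have := norm_nonneg B
          nlinarith) i1 hX (by
          have h3 : Real.sqrt 3 ^ 2 = 3 := Real.sq_sqrt (by norm_num)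
          calc B.im ^ 2 ≤ (Real.sqrt 3 * B.re) ^ 2 := pow_le_pow_left₀ i1 i2 2
            _ = 3 * B.re ^ 2 := by rw [mul_pow, h3]) (by rw [hn2] at hreg; linarith) (by
          rw [hsq]; exact not_le.1 hz)
      refine goal_of_par h (c1 i b z h hn ?_)
      rw [hA, ← hB]
      have hB' : B = (B.re : ℂ) + (B.im : ℂ) * Complex.I := (Complex.re_add_im B).symm
      rw [hB']
      exact hi
    · exact far_goal h hn
  · intro b z h hr hB i1 i2
    by_cases hz : ZI R ‖fc z (-3)‖ ‖fc z (-5)‖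
    · exact goal_z1 hI h hz
    by_cases hn : Near b z
    · have hreg := hR b z h hn
      set c := ‖fc z (-5)‖ with hc
      set A := fc z (-3) with hA
      have hc0 : 0 ≤ c := norm_nonneg _
      have hn2 : ‖A‖ ^ 2 = A.re ^ 2 + A.im ^ 2 := by
        rw [← Complex.normSq_eq_norm_sq, Complex.normSq_apply]; ring
      have hsq : Real.sqrt (A.re ^ 2 + A.im ^ 2) = ‖A‖ := by
        rw [← hn2, Real.sqrt_sq (norm_nonneg _)]
      obtain ⟨i, hi⟩ := v2 c A.re A.im hc0 (by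
          rw [← hn2]
          have := norm_nonneg A
          nlinarith) i1 i2 (by rw [hn2] at hreg; linarith) (by
          rw [hsq]; exact not_le.1 hz)
      refine goal_of_par h (c2 i b z h hn ?_)
      rw [hB, ← hA]
      have hA' : A = (A.re : ℂ) + (A.im : ℂ) * Complex.I := (Complex.re_add_im A).symm
      rw [hA']
      exact hi
    · exact far_goal h hn

/-- **the last line** -/
theorem sharp_final {R : ℝ} {ι κ : Type} {p : ι → ℂ → ℂ → ℝ} {q : κ → ℂ → ℂ → ℝ} (hR : StRegion) (hI : StZ1 R)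
    (c1 : ∀ i, Cell (p i)) (v1 : Cov1 R p) (c2 : ∀ i, Cell (q i)) (v2 : Cov2 R q) :
    IsGreatest {d | ∃ K : Set ℂ, Helper97.CB.IsBody K ∧ d = Helper97.CB.theta K}
      (ENNReal.ofReal (2 * Real.pi / Real.sqrt 27)) :=
  full_of 2 (by norm_num) (rq_final hR hI c1 v1 c2 v2)

/-! ## cells from certificates -/

/-- the static conditions of a certificate -/
structure Stat (P : Par) : Prop where
  reg : P.Reg
  cur : P.Cur
  loc : P.Loc
  blo : ∀ b z : ℝ → ℂ, AdmQ 2 b z → P.Blo b z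

/-- the quadratic lower bound of `Sp` -/
noncomputable def SpL (P : Par) (b z : ℝ → ℂ) : ℝ :=
  mean (fun t => ((starRingEnd ℂ) (P.u1 t) * g1 (b t) (z t)).re + ((starRingEnd ℂ) (P.u2 t) * g2 (b t) (z t)).re)
    + 1 / 2 * mean (fun t => P.lo t (b t) (z t)) - 2 + (fc b 0).re

/-- the near functional (negative in the near region) -/
noncomputable def NrL (P : Par) (b z : ℝ → ℂ) : ℝ := SpL P b z + 3 / 4 * mean (fun t => (b t).re ^ 2) - 1 / 5

theorem SpL_le {P : Par} (s : Stat P) {b z : ℝ → ℂ} (h : AdmQ 2 b z) : SpL P b z ≤ Sp b z := by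
  have hr := s.reg
  have blo : BR fun t => P.lo t (b t) (z t) := ⟨(s.blo b z h).1, (s.blo b z h).2⟩
  have bX := Xt_br (P := P) h hr
  obtain ⟨D, k1, k2, _⟩ := g_bm h
  have hz' : ∀ t, z (t + 2 * Real.pi) = z t := fun t => by
    rw [show t + 2 * Real.pi = t + Real.pi + Real.pi by ring, h.perz, h.perz, neg_neg]
  have hper : ∀ t, Xt P b z (t + 2 * Real.pi) = Xt P b z t := by
    intro t
    unfold Xt Par.u1 Par.u2
    rw [hr.pu1, hr.pu2, hz', per2 h.perb]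
  have key : mean (fun t => P.lo t (b t) (z t)) ≤ 2 * mean (fun t => Xt P b z t) := by
    rw [mean_pair bX hper, ← mul_assoc]
    norm_num
    refine mean_mono blo (bX.add (bX.sh _)) fun t => ?_
    have h1 := s.loc t (b t) (z t) (dom_of h t)
    have h2 : Xt P b z (t + Real.pi) =
        (exc (P.u1 (t + Real.pi)) (g1 (b t) (-z t)) + exc (P.u2 (t + Real.pi)) (g2 (b t) (-z t))) := by
      unfold Xt
      rw [h.perb, h.perz]
    rw [h2]
    unfold Xt
    linarith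
  have n1 := BR.nrm k1
  have n2 := BR.nrm k2
  have r1 := BR.re ((u1_bm hr).conj.mul k1)
  have r2 := BR.re ((u2_bm hr).conj.mul k2)
  have e1 : mean (fun t => Xt P b z t) = mean (fun t => ‖g1 (b t) (z t)‖ + ‖g2 (b t) (z t)‖)
      - mean (fun t => ((starRingEnd ℂ) (P.u1 t) * g1 (b t) (z t)).re
        + ((starRingEnd ℂ) (P.u2 t) * g2 (b t) (z t)).re) := by
    rw [← mean_sub (n1.add n2) (r1.add r2)]
    refine mean_congr fun t => ?_
    unfold Xt exc
    ring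
  unfold SpL Sp
  linarith

/-- a certificate: `S` is the class of the data (`fun _ => True` or a bound of `|sig|`), `q` the lower bound; the
prices of the cubic terms (`Lam`, `Cs`) are needed only where `0 ≤ q A B` -/
structure Low (P : Par) (mu : ℝ) (S : (ℝ → ℂ) → Prop) (q : ℂ → ℂ → ℝ) : Prop where
  st : Stat P
  lam : ∀ b z : ℝ → ℂ, AdmQ 2 b z → Near b z → S b → 0 ≤ q (fc z (-3)) (fc z (-5)) → P.Lam b z
  cs : ∀ b z : ℝ → ℂ, AdmQ 2 b z → Near b z → S b → 0 ≤ q (fc z (-3)) (fc z (-5)) → P.Cs b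
  mu0 : 0 ≤ mu
  low : ∀ b z : ℝ → ℂ, AdmQ 2 b z → S b → q (fc z (-3)) (fc z (-5)) ≤ P.EP b z + mu * NrL P b z

theorem Low.cert {P : Par} {mu : ℝ} {S : (ℝ → ℂ) → Prop} {q : ℂ → ℂ → ℝ} (L : Low P mu S q) {b z : ℝ → ℂ}
    (h : AdmQ 2 b z) (hn : Near b z) (hS : S b) (hq : 0 ≤ q (fc z (-3)) (fc z (-5))) : Cert b z := by
  refine ⟨P, ⟨L.st.reg, L.st.cur, L.st.loc, L.st.blo b z h, L.lam b z h hn hS hq, L.cs b z h hn hS hq⟩, ?_⟩
  have h1 := L.low b z h hS
  have h2 : NrL P b z ≤ 0 := by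
    have := SpL_le L.st h
    have hn' : Sp b z + 3 / 4 * mean (fun t => (b t).re ^ 2) < 1 / 5 := hn
    unfold NrL
    linarith
  have h3 := mul_nonneg L.mu0 (neg_nonneg.2 h2)
  linarith

/-- a cell from one certificate -/
theorem cell_one {P : Par} {mu : ℝ} {q : ℂ → ℂ → ℝ} (L : Low P mu (fun _ => True) q) : Cell q :=
  fun _ _ h hn hq => L.cert h hn trivial hq

/-- a cell from two certificates (cases of `b`) -/
theorem cell_two {P P' : Par} {mu mu' : ℝ} {S S' : (ℝ → ℂ) → Prop} {q : ℂ → ℂ → ℝ} (L : Low P mu S q)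
    (L' : Low P' mu' S' q) (hS : ∀ b, S b ∨ S' b) : Cell q := fun b _ h hn hq =>
  (hS b).elim (fun k => L.cert h hn k hq) fun k => L'.cert h hn k hq

/-- a smaller polynomial -/
theorem Cell.mono {p q : ℂ → ℂ → ℝ} (h : Cell q) (hpq : ∀ A B, 0 ≤ p A B → 0 ≤ q A B) : Cell p :=
  fun b z ha hn h0 => h b z ha hn (hpq _ _ h0)

end Helper56.SH
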