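import Pool.Agent.Helper56.SH.Near
import Pool.Agent.Helper95.SH.Cont4

/-!
# Project SHARP: the near functional and the trigonometric sections

`NrL_eq`: `NrL P b z` is the mean of a local quadratic function (minus `11/5`). `low_of_SN`: the inequality `Low.low`
follows from the trigonometric sections.
-/

set_option autoImplicit false

open MeasureTheory Set Filter Topology

namespace Helper56.SH

open Helper49.LT hiding sg
open Helper49.RC Helper44.GQ Helper49.Sharp
open Helper95.SH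
open Helper95.RC
open Helper56.RC (fc)
open Helper87.RC (BM)

/-- the local function of `NrL` -/
noncomputable def NF0 (P : Par) (t : ℝ) (b z : ℂ) : ℝ :=
  ((starRingEnd ℂ) (P.u1 t) * g1 b z).re + ((starRingEnd ℂ) (P.u2 t) * g2 b z).re + 1 / 2 * P.lo t b z
    + (3 / 4 * b.re ^ 2 + b.re)

theorem QL.resq : QL fun _ b _ => b.re ^ 2 := by
  refine ⟨fun b z hb hz => (Complex.measurable_re.comp hb).pow_const 2, ⟨0, fun t => by simp⟩,
    ⟨2, by norm_num, fun t b z b' z' => ?_⟩⟩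
  have h1 : |b.re - b'.re| ≤ ‖b - b'‖ := by
    rw [← Complex.sub_re]; exact Complex.abs_re_le_norm _
  have h2 : ‖b'‖ ≤ ‖b‖ + ‖b - b'‖ := by
    have := norm_sub_norm_le b' b
    rw [norm_sub_rev] at this
    linarith
  have h4 : |b.re + b'.re| ≤ 2 * ‖b‖ + ‖b - b'‖ := by
    have e1 := Complex.abs_re_le_norm b
    have e2 := Complex.abs_re_le_norm b'
    have e3 := abs_add_le b.re b'.re
    linarith
  have e : b.re ^ 2 - b'.re ^ 2 = (b.re - b'.re) * (b.re + b'.re) := by ring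
  rw [e, abs_mul]
  have h3 := mul_le_mul h1 h4 (abs_nonneg _) (norm_nonneg _)
  refine h3.trans ?_
  have := norm_nonneg b
  have := norm_nonneg z
  have := norm_nonneg (b - b')
  have := norm_nonneg (z - z')
  nlinarith [mul_nonneg (norm_nonneg (b - b')) (norm_nonneg z), mul_nonneg (norm_nonneg (z - z')) (norm_nonneg b),
    mul_nonneg (norm_nonneg (b - b')) (norm_nonneg (z - z')), mul_nonneg (norm_nonneg (z - z')) (norm_nonneg z)]

theorem QL.re1 : QL fun _ b _ => b.re := by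
  have h := (QL.lip (g := fun b _ => b) (fun b z hb _ => hb) (K := 1) (fun b z b' z' => by
    rw [one_mul]
    exact le_add_of_nonneg_right (norm_nonneg _)) (u := fun _ => 1) ⟨measurable_const, fun _ => by simp⟩).1
  have e : (fun (_ : ℝ) (b z : ℂ) => ((starRingEnd ℂ) (1 : ℂ) * b).re) = fun _ b _ => b.re := by
    funext t b z
    rw [map_one, one_mul]
  rw [e] at h
  exact h

theorem QL_NF0 {P : Par} (hr : P.Reg) (hl : QL P.lo) : QL (NF0 P) := by
  have a1 := QL.lip g1_lip.1 g1_lip.2 (u1_bm hr)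
  have a2 := QL.lip g2_lip.1 g2_lip.2 (u2_bm hr)
  exact ((a1.1.add a2.1).add (hl.cmul (1 / 2))).add ((QL.resq.cmul (3 / 4)).add QL.re1)

theorem fc_zero_re {b : ℝ → ℂ} {C : ℝ} (hb : BM b C) : (fc b 0).re = mean fun t => (b t).re := by
  rw [← mean_re hb, Helper87.RC.fc_eq]
  congr 2
  refine intervalIntegral.integral_congr fun t _ => ?_
  simp [ee_zero]

theorem NrL_eq {P : Par} (hr : P.Reg) (hl : QL P.lo) {b z : ℝ → ℂ} (hb : BF b) (hz : BF z) :
    NrL P b z = mean (fun t => NF0 P t (b t) (z t)) - 11 / 5 := by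
  have a1 := ((QL.lip g1_lip.1 g1_lip.2 (u1_bm hr)).1).br hb hz
  have a2 := ((QL.lip g2_lip.1 g2_lip.2 (u2_bm hr)).1).br hb hz
  have a3 := hl.br hb hz
  have a4 := QL.resq.br hb hz
  have a5 := QL.re1.br hb hz
  obtain ⟨C, hC⟩ := bf_bm hb
  have e : mean (fun t => NF0 P t (b t) (z t)) =
      mean (fun t => ((starRingEnd ℂ) (P.u1 t) * g1 (b t) (z t)).re + ((starRingEnd ℂ) (P.u2 t) * g2 (b t) (z t)).re)
      + 1 / 2 * mean (fun t => P.lo t (b t) (z t)) + (3 / 4 * mean (fun t => (b t).re ^ 2)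
        + mean (fun t => (b t).re)) := by
    rw [← mean_cmul (1 / 2), ← mean_cmul (3 / 4), ← mean_add (a4.cmul (3 / 4)) a5, ← mean_add (a1.add a2) (a3.cmul (1 / 2)),
      ← mean_add ((a1.add a2).add (a3.cmul (1 / 2))) ((a4.cmul (3 / 4)).add a5)]
    rfl
  unfold NrL SpL
  rw [e, fc_zero_re hC]
  ring

theorem NrL_lim {P : Par} (hr : P.Reg) (hl : QL P.lo) {b z : ℝ → ℂ} (d : Dat b z) :
    Tendsto (fun N => NrL P (SN N b) (SN N z)) atTop (𝓝 (NrL P b z)) := by
  have mm := mean_lim (QL_NF0 hr hl) d.hb d.hz (fun N => bf_SN b N) (fun N => bf_SN z N) (ms_SN d.hb) (ms_SN d.hz)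
  rw [NrL_eq hr hl d.hb d.hz]
  have e : (fun N => NrL P (SN N b) (SN N z)) =
      fun N => mean (fun t => NF0 P t (SN N b t) (SN N z t)) - 11 / 5 := by
    funext N
    exact NrL_eq hr hl (bf_SN b N) (bf_SN z N)
  rw [e]
  exact mm.sub_const _

/-- **`Low.low` from the trigonometric sections** -/
theorem low_of_SN {P : Par} (hr : P.Reg) (hl : QL P.lo) (mu : ℝ) {b z : ℝ → ℂ} (d : Dat b z) (q : ℝ) (N0 : ℕ)
    (h : ∀ N, N0 ≤ N → q ≤ P.EP (SN N b) (SN N z) + mu * NrL P (SN N b) (SN N z)) :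
    q ≤ P.EP b z + mu * NrL P b z := by
  refine ge_of_tendsto ((EP_lim hr hl d).add ((NrL_lim hr hl d).const_mul mu)) ?_
  filter_upwards [eventually_ge_atTop N0] with N hN
  exact h N hN

/-- the version for admissible data: `(fc z (-3), fc z (-5))` are the coefficients of every section with `N ≥ 5` -/
theorem low_adm {P : Par} (hr : P.Reg) (hl : QL P.lo) (mu : ℝ) (q : ℂ → ℂ → ℝ) (S : (ℝ → ℂ) → Prop) (N0 : ℕ)
    (h : ∀ b z : ℝ → ℂ, Dat b z → S b → ∀ N, N0 ≤ N → q (fc z (-3)) (fc z (-5)) ≤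
      P.EP (SN N b) (SN N z) + mu * NrL P (SN N b) (SN N z)) :
    ∀ b z : ℝ → ℂ, AdmQ 2 b z → S b → q (fc z (-3)) (fc z (-5)) ≤ P.EP b z + mu * NrL P b z :=
  fun b z ha hS => low_of_SN hr hl mu (AdmQ.dat (by norm_num) ha) _ N0 (h b z (AdmQ.dat (by norm_num) ha) hS)

end Helper56.SH
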