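import Pool.Agent.Helper75.SH.TSD
import Pool.Agent.Helper49.RC.CellF

/-!
# Project RC, SHARP, tail symbol: the algebra

The half sum of the pointwise form over `x`, `x + π` is at least `∑ M_ij y_i y_j`, `y = (b₂, b₃, Re z, Im z)`.
-/

set_option autoImplicit false

open Helper49.LT hiding sg

namespace Pool.Agent.Helper56.TS

open Pool.Agent.Helper75.SH
open Helper49.RC (om)
open Helper95.RC (Lf kq)

/-- one family, with `V` instead of `v ^ 2` -/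
theorem tsg_le (c : TSc) {nu gg ag δ : ℝ} (h0 : 2 ≤ c.l0) (hp : 0 ≤ c.ga * nu * c.kap4)
    (hg : c.ga * nu * c.kap4 / 16 ≤ gg)
    (ha : gg * ((c.l0 + 1) / (c.l0 - 1)) + c.dlow + gg * δ ≤ ag) {v : ℂ} (hv : ‖v‖ = 1) {W : ℂ}
    (hW : ‖W - v ^ 2‖ ≤ δ) (g : ℂ) :
    TSg c nu g v ≤ ag * ‖g‖ ^ 2 - gg * (g ^ 2 * (starRingEnd ℂ) W).re := by
  have hl : (2 : ℝ) ≤ c.l0 := by exact_mod_cast h0
  have hl1 : (0 : ℝ) < c.l0 - 1 := by linarith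
  have e1 : ((c.l0 : ℝ) / (c.l0 - 1) - 1 / (c.l0 - 1)) = 1 := by
    rw [← sub_div, div_self hl1.ne']
  have e2 : ((c.l0 : ℝ) / (c.l0 - 1) + 1 / (c.l0 - 1)) = (c.l0 + 1) / (c.l0 - 1) := by
    rw [← add_div]
  set κ := ((c.l0 : ℝ) + 1) / (c.l0 - 1) with hκ
  have k1 : 1 ≤ κ := by
    rw [hκ, le_div_iff₀ hl1]
    linarith
  have n1 : (g ^ 2 * (starRingEnd ℂ) v ^ 2).re ≤ ‖g‖ ^ 2 := by
    refine (Complex.re_le_norm _).trans (le_of_eq ?_)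
    rw [norm_mul, norm_pow, norm_pow, RCLike.norm_conj, hv]
    ring
  have n2 : (g ^ 2 * (starRingEnd ℂ) W).re ≤ (g ^ 2 * (starRingEnd ℂ) v ^ 2).re + δ * ‖g‖ ^ 2 := by
    have e3 : (g ^ 2 * (starRingEnd ℂ) W).re - (g ^ 2 * (starRingEnd ℂ) v ^ 2).re =
        (g ^ 2 * (starRingEnd ℂ) (W - v ^ 2)).re := by
      rw [map_sub, map_pow, mul_sub, Complex.sub_re]
    have e4 : (g ^ 2 * (starRingEnd ℂ) (W - v ^ 2)).re ≤ ‖g‖ ^ 2 * δ := by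
      refine (Complex.re_le_norm _).trans ?_
      rw [norm_mul, norm_pow, RCLike.norm_conj]
      exact mul_le_mul_of_nonneg_left hW (by positivity)
    linarith
  have s0 : 0 ≤ ‖g‖ ^ 2 := by positivity
  have s1 : 0 ≤ κ * ‖g‖ ^ 2 - (g ^ 2 * (starRingEnd ℂ) v ^ 2).re := by nlinarith
  have g0 : 0 ≤ gg := le_trans (by positivity) hg
  have s2 : c.ga * nu * c.kap4 / 16 * (κ * ‖g‖ ^ 2 - (g ^ 2 * (starRingEnd ℂ) v ^ 2).re) ≤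
      gg * (κ * ‖g‖ ^ 2 - (g ^ 2 * (starRingEnd ℂ) v ^ 2).re) := mul_le_mul_of_nonneg_right hg s1
  have s3 : gg * (g ^ 2 * (starRingEnd ℂ) W).re ≤ gg * ((g ^ 2 * (starRingEnd ℂ) v ^ 2).re + δ * ‖g‖ ^ 2) :=
    mul_le_mul_of_nonneg_left n2 g0
  have s4 : (gg * κ + c.dlow + gg * δ) * ‖g‖ ^ 2 ≤ ag * ‖g‖ ^ 2 := mul_le_mul_of_nonneg_right ha s0
  unfold TSg
  rw [e1, e2]
  have e5 : c.ga * (nu / 2) * (c.kap4 / 4) * (κ / 2 * ‖g‖ ^ 2 - 1 / 2 * (g ^ 2 * (starRingEnd ℂ) v ^ 2).re)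
      = c.ga * nu * c.kap4 / 16 * (κ * ‖g‖ ^ 2 - (g ^ 2 * (starRingEnd ℂ) v ^ 2).re) := by ring
  rw [e5]
  nlinarith

/-- `|g|² ` and `Re (g² conj W)` in coordinates -/
theorem gsq (X Y : ℝ) (W : ℂ) (ag gg : ℝ) :
    ag * ‖((X : ℂ) + Complex.I * (Y : ℂ))‖ ^ 2 - gg * (((X : ℂ) + Complex.I * (Y : ℂ)) ^ 2 * (starRingEnd ℂ) W).re
      = ag * (X ^ 2 + Y ^ 2) - gg * ((X ^ 2 - Y ^ 2) * W.re + 2 * (X * Y) * W.im) := by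
  have e1 : ‖((X : ℂ) + Complex.I * (Y : ℂ))‖ ^ 2 = X ^ 2 + Y ^ 2 := by
    rw [← Complex.normSq_eq_norm_sq, Complex.normSq_apply]
    simp
    ring
  have e2 : (((X : ℂ) + Complex.I * (Y : ℂ)) ^ 2 * (starRingEnd ℂ) W).re = (X ^ 2 - Y ^ 2) * W.re + 2 * (X * Y) * W.im := by
    have : ((X : ℂ) + Complex.I * (Y : ℂ)) ^ 2 = ((X ^ 2 - Y ^ 2 : ℝ) : ℂ) + Complex.I * ((2 * (X * Y) : ℝ) : ℂ) := by
      push_cast
      linear_combination ((Y : ℂ) ^ 2) * Complex.I_mul_I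
    rw [this]
    generalize X ^ 2 - Y ^ 2 = P
    generalize 2 * (X * Y) = Q
    simp [Complex.mul_re, Complex.add_re, Complex.add_im]
  rw [e1, e2]

theorem om_eq : om = ((1 / 2 : ℝ) : ℂ) + Complex.I * ((Real.sqrt 3 / 2 : ℝ) : ℂ) := by
  apply Complex.ext
  · rw [Helper49.Cell.CB.omre]; simp
  · rw [Helper49.Cell.CB.omim]; simp

theorem omc_eq : (starRingEnd ℂ) om = ((1 / 2 : ℝ) : ℂ) - Complex.I * ((Real.sqrt 3 / 2 : ℝ) : ℂ) := by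
  rw [om_eq, map_add, map_mul, Complex.conj_I, Complex.conj_ofReal, Complex.conj_ofReal]
  ring

theorem kq_eq : kq 2 = ((Real.sqrt 3 : ℝ) : ℂ) + Complex.I * ((1 / 4 : ℝ) : ℂ) := by
  unfold kq
  push_cast
  ring

theorem kqc_eq : (starRingEnd ℂ) (kq 2) = ((Real.sqrt 3 : ℝ) : ℂ) - Complex.I * ((1 / 4 : ℝ) : ℂ) := by
  rw [kq_eq, map_add, map_mul, Complex.conj_I, Complex.conj_ofReal, Complex.conj_ofReal]
  ring

theorem g1L_eq (b2 b3 : ℝ) (z : ℂ) : g1L b2 b3 z =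
    ((b2 / 2 + Real.sqrt 3 * b3 + z.re : ℝ) : ℂ) + Complex.I * ((-(Real.sqrt 3 / 2) * b2 + b3 / 4 + z.im : ℝ) : ℂ) := by
  unfold g1L
  rw [omc_eq, kq_eq]
  have hz : z = (z.re : ℂ) + z.im * Complex.I := (Complex.re_add_im z).symm
  generalize z.re = x at *
  generalize z.im = y at *
  rw [hz]
  push_cast
  ring

theorem g2L_eq (b2 b3 : ℝ) (z : ℂ) : g2L b2 b3 z =
    ((-(b2 / 2) + Real.sqrt 3 * b3 - z.re : ℝ) : ℂ) + Complex.I * ((-(Real.sqrt 3 / 2) * b2 - b3 / 4 - z.im : ℝ) : ℂ) := by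
  have h3 : Real.sqrt 3 ^ 2 = 3 := Real.sq_sqrt (by norm_num)
  have h4 : ((Real.sqrt 3 : ℝ) : ℂ) ^ 2 = 3 := by exact_mod_cast h3
  unfold g2L
  rw [omc_eq, kqc_eq]
  have hz : z = (z.re : ℂ) + z.im * Complex.I := (Complex.re_add_im z).symm
  generalize z.re = x at *
  generalize z.im = y at *
  rw [hz]
  push_cast
  linear_combination (1 / 4 * ((Real.sqrt 3 : ℝ) : ℂ) ^ 2 * (b2 : ℂ)) * Complex.I_mul_I - (1 / 4 * (b2 : ℂ)) * h4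

/-- the half sum in coordinates, one value of `x` and of `x + π`; `s = √3` -/
theorem fam_sum {s : ℝ} (hs : s ^ 2 = 3) (ag gg b2 b3 x y p1 q1 p1' q1' p2 q2 p2' q2' : ℝ) :
    (ag * ((b2 / 2 + s * b3 + x) ^ 2 + (-(s / 2) * b2 + b3 / 4 + y) ^ 2) - gg * (((b2 / 2 + s * b3 + x) ^ 2
        - (-(s / 2) * b2 + b3 / 4 + y) ^ 2) * p1 + 2 * ((b2 / 2 + s * b3 + x) * (-(s / 2) * b2 + b3 / 4 + y)) * q1))
    + (ag * ((-(b2 / 2) + s * b3 - x) ^ 2 + (-(s / 2) * b2 - b3 / 4 - y) ^ 2) - gg * (((-(b2 / 2) + s * b3 - x) ^ 2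
        - (-(s / 2) * b2 - b3 / 4 - y) ^ 2) * p2 + 2 * ((-(b2 / 2) + s * b3 - x) * (-(s / 2) * b2 - b3 / 4 - y)) * q2))
    + (ag * ((b2 / 2 + s * b3 - x) ^ 2 + (-(s / 2) * b2 + b3 / 4 - y) ^ 2) - gg * (((b2 / 2 + s * b3 - x) ^ 2
        - (-(s / 2) * b2 + b3 / 4 - y) ^ 2) * p1' + 2 * ((b2 / 2 + s * b3 - x) * (-(s / 2) * b2 + b3 / 4 - y)) * q1'))
    + (ag * ((-(b2 / 2) + s * b3 + x) ^ 2 + (-(s / 2) * b2 - b3 / 4 + y) ^ 2) - gg * (((-(b2 / 2) + s * b3 + x) ^ 2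
        - (-(s / 2) * b2 - b3 / 4 + y) ^ 2) * p2' + 2 * ((-(b2 / 2) + s * b3 + x) * (-(s / 2) * b2 - b3 / 4 + y)) * q2'))
    = ag * (4 * b2 ^ 2 + 49 / 4 * b3 ^ 2 + 4 * (x ^ 2 + y ^ 2))
      - gg * ((-(1 / 2) * (p1 + p1' + (p2 + p2')) - s / 2 * (q1 + q1' - (q2 + q2'))) * b2 ^ 2
        + (47 / 16 * (p1 + p1' + (p2 + p2')) + s / 2 * (q1 + q1' - (q2 + q2'))) * b3 ^ 2
        + 2 * (5 * s / 8 * (p1 + p1' - (p2 + p2')) - 11 / 8 * (q1 + q1' + (q2 + q2'))) * (b2 * b3)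
        + (p1 + p1' + (p2 + p2')) * (x ^ 2 - y ^ 2) + 2 * (q1 + q1' + (q2 + q2')) * (x * y)
        + 2 * (1 / 2 * (p1 - p1' + (p2 - p2')) - s / 2 * (q1 - q1' - (q2 - q2'))) * (b2 * x)
        + 2 * (1 / 2 * (q1 - q1' + (q2 - q2')) + s / 2 * (p1 - p1' - (p2 - p2'))) * (b2 * y)
        + 2 * (s * (p1 - p1' - (p2 - p2')) + 1 / 4 * (q1 - q1' + (q2 - q2'))) * (b3 * x)
        + 2 * (s * (q1 - q1' - (q2 - q2')) - 1 / 4 * (p1 - p1' + (p2 - p2'))) * (b3 * y)) := by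
  linear_combination (ag * (4 * b3 ^ 2 + b2 ^ 2) - gg * ((b3 ^ 2 - b2 ^ 2 / 4) * (p1 + p1' + p2 + p2')
    - b2 * b3 * (q1 + q1' + q2 + q2'))) * hs

end Pool.Agent.Helper56.TS
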