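import Pool.Agent.Helper76.RC.TrD

/-!
# Project RC, SHARP, tail symbol: expressions of packed trigonometric polynomials

`Ex`: expressions; `ev b e : FP` the value, `ok b r e : Bool` no overflow, `vl b e t` the function; `ok_sound`.
Sums pad to the larger window.
-/

set_option autoImplicit false

open Helper49.LT hiding sg

namespace Pool.Agent.Helper56.TS

open Helper76.RC.TPoly Helper54.RC.Fast Helper76.RC.ExpF Helper76.RC.TrD

/-- expressions -/
inductive Ex where
  | atm : FP → Ex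
  | cs : ℕ → Ex
  | ad : Ex → Ex → Ex
  | sb : Ex → Ex → Ex
  | ml : Ex → Ex → Ex
  | sm : ℕ → Ex → Ex
  | mi : Ex → Ex
  | cj : Ex → Ex

/-- pads both to the same window, first and second -/
def pa (b : ℕ) (z w : FP) : FP := padF b (Nat.sub w.N z.N) z

/-- the value -/
def ev (b : ℕ) : Ex → FP
  | .atm z => z
  | .cs c => cst b 0 c
  | .ad x y => addF b (pa b (ev b x) (ev b y)) (pa b (ev b y) (ev b x))
  | .sb x y => subF b (pa b (ev b x) (ev b y)) (pa b (ev b y) (ev b x))
  | .ml x y => mulF b (ev b x) (ev b y)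
  | .sm c x => smF b c (ev b x)
  | .mi x => mulI b (ev b x)
  | .cj x => cjF b (ev b x)

/-- no overflow -/
def ok (b r : ℕ) : Ex → Bool
  | .atm z => wf b z
  | .cs c => Nat.ble (Nat.succ c) (Nat.pow 2 b)
  | .ad x y => bif ok b r x then
      bif ok b r y then oka b r (pa b (ev b x) (ev b y)) (pa b (ev b y) (ev b x)) else false
    else false
  | .sb x y => bif ok b r x then
      bif ok b r y then oka b r (pa b (ev b x) (ev b y)) (pa b (ev b y) (ev b x)) else false
    else false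
  | .ml x y => bif ok b r x then
      bif ok b r y then okm b r (ev b x) (ev b y) else false
    else false
  | .sm c x => bif ok b r x then oks b r c (ev b x) else false
  | .mi x => bif ok b r x then okn b r (ev b x) else false
  | .cj x => bif ok b r x then okn b r (ev b x) else false

/-- the function -/
noncomputable def vl (b : ℕ) : Ex → ℝ → ℂ
  | .atm z, t => V b z t
  | .cs c, _ => c
  | .ad x y, t => vl b x t + vl b y t
  | .sb x y, t => vl b x t - vl b y t
  | .ml x y, t => vl b x t * vl b y t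
  | .sm c x, t => c * vl b x t
  | .mi x, t => Complex.I * vl b x t
  | .cj x, t => (starRingEnd ℂ) (vl b x t)

theorem be {a c : Bool} : (bif a then c else false) = true ↔ a = true ∧ c = true := by cases a <;> simp

theorem pa_sound (b : ℕ) (z w : FP) (hz : wf b z = true) :
    wf b (pa b z w) = true ∧ ∀ t, V b (pa b z w) t = V b z t := padF_sound b _ z hz

theorem ok_sound (b r : ℕ) (hr : r ≤ b + 1) (e : Ex) (h : ok b r e = true) :
    wf b (ev b e) = true ∧ ∀ t, V b (ev b e) t = vl b e t := by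
  induction e with
  | atm z => exact ⟨h, fun _ => rfl⟩
  | cs c => exact cst_sound b 0 c (Nat.le_of_ble_eq_true h)
  | ad x y ih1 ih2 =>
    unfold ok at h
    rw [be, be] at h
    obtain ⟨h1, h2, h3⟩ := h
    obtain ⟨a1, a2⟩ := ih1 h1
    obtain ⟨b1, b2⟩ := ih2 h2
    obtain ⟨c1, c2⟩ := pa_sound b (ev b x) (ev b y) a1
    obtain ⟨d1, d2⟩ := pa_sound b (ev b y) (ev b x) b1
    obtain ⟨k1, k2⟩ := addF_sound b r hr _ _ c1 d1 h3
    refine ⟨k1, fun t => ?_⟩
    show V b (addF b _ _) t = vl b x t + vl b y t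
    rw [k2, c2, d2, a2, b2]
  | sb x y ih1 ih2 =>
    unfold ok at h
    rw [be, be] at h
    obtain ⟨h1, h2, h3⟩ := h
    obtain ⟨a1, a2⟩ := ih1 h1
    obtain ⟨b1, b2⟩ := ih2 h2
    obtain ⟨c1, c2⟩ := pa_sound b (ev b x) (ev b y) a1
    obtain ⟨d1, d2⟩ := pa_sound b (ev b y) (ev b x) b1
    obtain ⟨k1, k2⟩ := subF_sound b r hr _ _ c1 d1 h3
    refine ⟨k1, fun t => ?_⟩
    show V b (subF b _ _) t = vl b x t - vl b y t
    rw [k2, c2, d2, a2, b2]
  | ml x y ih1 ih2 =>
    unfold ok at h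
    rw [be, be] at h
    obtain ⟨h1, h2, h3⟩ := h
    obtain ⟨a1, a2⟩ := ih1 h1
    obtain ⟨b1, b2⟩ := ih2 h2
    obtain ⟨k1, k2⟩ := mulF_sound b r hr _ _ a1 b1 h3
    refine ⟨k1, fun t => ?_⟩
    show V b (mulF b _ _) t = vl b x t * vl b y t
    rw [k2, a2, b2]
  | sm c x ih =>
    unfold ok at h
    rw [be] at h
    obtain ⟨a1, a2⟩ := ih h.1
    obtain ⟨k1, k2⟩ := smF_sound b r hr c _ a1 h.2
    refine ⟨k1, fun t => ?_⟩
    show V b (smF b c _) t = (c : ℂ) * vl b x t
    rw [k2, a2]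
  | mi x ih =>
    unfold ok at h
    rw [be] at h
    obtain ⟨a1, a2⟩ := ih h.1
    obtain ⟨k1, k2⟩ := mulI_sound b r hr _ a1 h.2
    refine ⟨k1, fun t => ?_⟩
    show V b (mulI b _) t = Complex.I * vl b x t
    rw [k2, a2]
  | cj x ih =>
    unfold ok at h
    rw [be] at h
    obtain ⟨a1, a2⟩ := ih h.1
    obtain ⟨k1, k2⟩ := cjF_sound b r hr _ h.2
    refine ⟨k1, fun t => ?_⟩
    show V b (cjF b _) t = (starRingEnd ℂ) (vl b x t)
    rw [k2, a2]

/-- the sup norm is at most the `ℓ¹` norm -/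
theorem ok_norm (b r : ℕ) (hr : r ≤ b + 1) (e : Ex) (h : ok b r e = true) (t : ℝ) : ‖vl b e t‖ ≤ nrF b r (ev b e) := by
  rw [← (ok_sound b r hr e h).2 t]
  exact norm_V_le b r hr _ t

/-- `2 Re` -/
def rP (x : Ex) : Ex := .ad x (.cj x)
/-- `2 Im` -/
def iP (x : Ex) : Ex := .mi (.sb (.cj x) x)

theorem vl_rP (b : ℕ) (x : Ex) (t : ℝ) : vl b (rP x) t = ((2 * (vl b x t).re : ℝ) : ℂ) := by
  show vl b x t + (starRingEnd ℂ) (vl b x t) = _
  rw [Complex.add_conj]

theorem vl_iP (b : ℕ) (x : Ex) (t : ℝ) : vl b (iP x) t = ((2 * (vl b x t).im : ℝ) : ℂ) := by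
  show Complex.I * ((starRingEnd ℂ) (vl b x t) - vl b x t) = _
  have h := Complex.sub_conj (vl b x t)
  have h2 : (starRingEnd ℂ) (vl b x t) - vl b x t = -((2 * (vl b x t).im : ℝ) * Complex.I) := by
    rw [← h]; ring
  rw [h2]
  have := Complex.I_mul_I
  linear_combination (-((2 * (vl b x t).im : ℝ) : ℂ)) * this

end Pool.Agent.Helper56.TS
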