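import Pool.Agent.Helper56.SH.TSN

/-!
# Project RC, SHARP, tail symbol: soundness of the check
-/

set_option autoImplicit false
set_option linter.unusedSimpArgs false

open Helper49.LT hiding sg

namespace Pool.Agent.Helper56.TS

open Helper76.RC.TPoly Helper54.RC.Fast Helper76.RC.ExpF Helper76.RC.TrD
open Helper49.Cell
open Helper41.SH (IA inv)
open Helper95.SH (CD)
open Helper95.RC (Lf)
open Pool.Agent.Helper75.SH

/-- the data of a record at a point -/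
noncomputable def pt (R : Rec) (C : TC) (x : ℝ) : Pt where
  w := R.par.w x
  f := R.cb.f x
  F := ((R.m : ℝ) / 100000 - (R.lam : ℝ) / 100000) * R.par.w x + (R.mu1 : ℝ) / 100000 / 2
  cs := (R.cs : ℝ) / 100000
  mu := (R.mu1 : ℝ) / 100000 + (R.mu2 : ℝ) / 100000
  g := (C.g : ℝ) / 100000
  n2 := (C.n2 : ℝ) / 100000
  n3 := (C.n3 : ℝ) / 100000
  nx := (C.nx : ℝ) / 100000
  ny := (C.ny : ℝ) / 100000
  v := vs C.p.h C.N C.l1 C.l2 x

/-- `2 ^ hp`, `2 ^ {h}`, `2 ^ {2 rho}` -/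
noncomputable def SS (C : TC) : ℝ := 160 * (2 ^ C.hp * (4 * 2 ^ C.p.h)) * 100000000000000000000
noncomputable def KK (C : TC) : ℝ := 2 ^ (2 * C.rho) * SS C

theorem cX (C : TC) : ((nX C : ℕ) : ℝ) = 2 ^ C.hp := by
  show ((2 ^ C.hp : ℕ) : ℝ) = _
  push_cast; rfl
theorem cZ (C : TC) : ((nZ C : ℕ) : ℝ) = 2 ^ C.hp * (4 * 2 ^ C.p.h) := by
  show ((2 ^ C.hp * (4 * 2 ^ C.p.h) : ℕ) : ℝ) = _
  push_cast; rfl
theorem cPp (C : TC) : ((nP C : ℕ) : ℝ) = 2 ^ (2 * C.rho) := by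
  show ((2 ^ (2 * C.rho) : ℕ) : ℝ) = _
  push_cast; rfl
theorem cS (C : TC) : ((nS C : ℕ) : ℝ) = SS C := by
  show (((160 * nZ C) * 100000000000000000000 : ℕ) : ℝ) = _
  unfold SS
  push_cast [cZ]
  ring

/-- the values of the atoms of the record -/
structure AtV (R : Rec) (C : TC) (x : ℝ) : Prop where
  w : vl C.b (eW R C) x = ((100000 * (pt R C x).w : ℝ) : ℂ)
  g : vl C.b (eG R C) x = ((50000000000 * (pt R C x).f : ℝ) : ℂ)
  F : vl C.b (eF R C) x = ((20000000000 * (pt R C x).F : ℝ) : ℂ)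
  ml : ((nml R : ℕ) : ℝ) = R.m - R.lam
  cs : ((ncs R : ℕ) : ℝ) = 900000 - R.cs
  mu : ((nmu R : ℕ) : ℝ) = R.mu1 + R.mu2

theorem toNat_cast {a : ℤ} (h : 0 ≤ a) : ((a.toNat : ℕ) : ℝ) = (a : ℝ) := by
  have : ((a.toNat : ℕ) : ℤ) = a := Int.toNat_of_nonneg h
  exact_mod_cast this

theorem atV {R : Rec} {C : TC} (h1 : R.lam ≤ R.m) (h2 : R.cs ≤ 900000) (h3 : 0 ≤ R.mu1) (h4 : 0 ≤ R.mu2)
    (hT : Rec.okT R C.b C.r = true) (x : ℝ) : AtV R C x := by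
  have e1 : ((nml R : ℕ) : ℝ) = R.m - R.lam := by
    have : ((nml R : ℕ) : ℝ) = ((R.m - R.lam : ℤ) : ℝ) := toNat_cast (show (0 : ℤ) ≤ R.m - R.lam by omega)
    rw [this]; push_cast; rfl
  have e2 : ((ncs R : ℕ) : ℝ) = 900000 - R.cs := by
    have : ((ncs R : ℕ) : ℝ) = ((900000 - R.cs : ℤ) : ℝ) := toNat_cast (show (0 : ℤ) ≤ 900000 - R.cs by omega)
    rw [this]; push_cast; rfl
  have e3 : ((nmu R : ℕ) : ℝ) = R.mu1 + R.mu2 := by
    have : ((nmu R : ℕ) : ℝ) = ((R.mu1 + R.mu2 : ℤ) : ℝ) := toNat_cast (show (0 : ℤ) ≤ R.mu1 + R.mu2 by omega)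
    rw [this]; push_cast; rfl
  have e4 : ((nm1 R : ℕ) : ℝ) = R.mu1 := toNat_cast h3
  have w1 : vl C.b (eW R C) x = ((100000 * (pt R C x).w : ℝ) : ℂ) := by
    show V C.b (Rec.wF R C.b) x = _
    rw [(Rec.wF_sound hT).2]
    unfold pt
    push_cast
    ring
  refine ⟨w1, ?_, ?_, e1, e2, e3⟩
  · show V C.b (Rec.fF R C.b) x = _
    rw [(Rec.fF_sound hT).2]
    unfold pt
    push_cast
    ring
  · show ((Nat.mul 2 (nml R) : ℕ) : ℂ) * vl C.b (eW R C) x + ((Nat.mul (nm1 R) 100000 : ℕ) : ℂ) = _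
    rw [w1]
    have e5 : ((Nat.mul 2 (nml R) : ℕ) : ℂ) = ((2 * (R.m - R.lam) : ℝ) : ℂ) := by
      rw [← e1]; show ((2 * nml R : ℕ) : ℂ) = _; push_cast; rfl
    have e6 : ((Nat.mul (nm1 R) 100000 : ℕ) : ℂ) = ((R.mu1 * 100000 : ℝ) : ℂ) := by
      rw [← e4]; show ((nm1 R * 100000 : ℕ) : ℂ) = _; push_cast; rfl
    rw [e5, e6]
    unfold pt
    push_cast
    ring

/-- an abbreviation for casts -/
theorem nc (n : ℕ) : ((n : ℕ) : ℂ) = (((n : ℕ) : ℝ) : ℂ) := by push_cast; rfl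

section

variable {R : Rec} {T : TI} {C : TC} {x : ℝ} (A : AtV R C x) (o1 : okL C.b C.N C.l1 = true) (o2 : okL C.b C.N C.l2 = true)

include A o1 o2

theorem v00 (t : ℕ) : vl C.b (.sm (nP C) (m00 R C t)) x = ((KK C * (pt R C x).M00 ((t : ℝ) / 2 ^ C.hp) : ℝ) : ℂ) := by
  obtain ⟨x1, x2, x3, x4, x5, x6, x7, x8⟩ := xP_val (h := C.p.h) o1 o2 x
  have p1 : (2 : ℝ) ^ C.hp ≠ 0 := by positivity
  simp only [m00, vl, eW2, A.w, A.F, aP, cM, x1, x4, Nat.mul_eq, Nat.cast_mul, nc, cX, cZ, cPp, A.cs, A.mu]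
  simp only [Pt.M00, KK, SS, pt]
  push_cast
  field_simp
  ring

theorem v11 (t : ℕ) : vl C.b (.sm (nP C) (m11 R C t)) x = ((KK C * (pt R C x).M11 ((t : ℝ) / 2 ^ C.hp) : ℝ) : ℂ) := by
  obtain ⟨x1, x2, x3, x4, x5, x6, x7, x8⟩ := xP_val (h := C.p.h) o1 o2 x
  have p1 : (2 : ℝ) ^ C.hp ≠ 0 := by positivity
  simp only [m11, vl, eW2, A.w, A.F, aP, cM, x1, x4, Nat.mul_eq, Nat.cast_mul, nc, cX, cZ, cPp, A.cs, A.mu]
  simp only [Pt.M11, KK, SS, pt]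
  push_cast
  field_simp
  ring

theorem v01 (t : ℕ) : vl C.b (.sm (nP C) (m01 R C t)) x = ((KK C * (pt R C x).M01 ((t : ℝ) / 2 ^ C.hp) : ℝ) : ℂ) := by
  obtain ⟨x1, x2, x3, x4, x5, x6, x7, x8⟩ := xP_val (h := C.p.h) o1 o2 x
  have p1 : (2 : ℝ) ^ C.hp ≠ 0 := by positivity
  simp only [m01, vl, eW2, A.w, A.F, aM, cP, x2, x3, Nat.mul_eq, Nat.cast_mul, nc, cX, cZ, cPp, A.cs, A.mu]
  simp only [Pt.M01, KK, SS, pt]
  push_cast
  field_simp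
  ring

theorem v22 : vl C.b (.sm (nP C) (m22 R C)) x = ((KK C * (pt R C x).M22 : ℝ) : ℂ) := by
  obtain ⟨x1, x2, x3, x4, x5, x6, x7, x8⟩ := xP_val (h := C.p.h) o1 o2 x
  have p1 : (2 : ℝ) ^ C.hp ≠ 0 := by positivity
  simp only [m22, vl, eW2, A.w, A.F, A.g, aP, x1, Nat.mul_eq, Nat.cast_mul, nc, cX, cZ, cPp, A.cs, A.mu]
  simp only [Pt.M22, KK, SS, pt]
  push_cast
  field_simp
  ring

theorem v33 : vl C.b (.sm (nP C) (m33 R C)) x = ((KK C * (pt R C x).M33 : ℝ) : ℂ) := by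
  obtain ⟨x1, x2, x3, x4, x5, x6, x7, x8⟩ := xP_val (h := C.p.h) o1 o2 x
  have p1 : (2 : ℝ) ^ C.hp ≠ 0 := by positivity
  simp only [m33, vl, eW2, A.w, A.F, A.g, aP, x1, Nat.mul_eq, Nat.cast_mul, nc, cX, cZ, cPp, A.cs, A.mu]
  simp only [Pt.M33, KK, SS, pt]
  push_cast
  field_simp
  ring

theorem v23 : vl C.b (.sm (nP C) (m23 R C)) x = ((KK C * (pt R C x).M23 : ℝ) : ℂ) := by
  obtain ⟨x1, x2, x3, x4, x5, x6, x7, x8⟩ := xP_val (h := C.p.h) o1 o2 x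
  have p1 : (2 : ℝ) ^ C.hp ≠ 0 := by positivity
  simp only [m23, vl, eW2, A.w, A.F, cP, x2, Nat.mul_eq, Nat.cast_mul, nc, cX, cZ, cPp, A.cs, A.mu]
  simp only [Pt.M23, KK, SS, pt]
  push_cast
  field_simp
  ring

theorem v02 (t : ℕ) : vl C.b (.sm (nP C) (m02 R C t)) x = ((KK C * (pt R C x).M02 ((t : ℝ) / 2 ^ C.hp) : ℝ) : ℂ) := by
  obtain ⟨x1, x2, x3, x4, x5, x6, x7, x8⟩ := xP_val (h := C.p.h) o1 o2 x
  have p1 : (2 : ℝ) ^ C.hp ≠ 0 := by positivity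
  simp only [m02, vl, eW2, A.w, A.F, dP, hM, x5, x8, Nat.mul_eq, Nat.cast_mul, nc, cX, cZ, cPp, A.cs, A.mu]
  simp only [Pt.M02, KK, SS, pt]
  push_cast
  field_simp
  ring

theorem v03 (t : ℕ) : vl C.b (.sm (nP C) (m03 R C t)) x = ((KK C * (pt R C x).M03 ((t : ℝ) / 2 ^ C.hp) : ℝ) : ℂ) := by
  obtain ⟨x1, x2, x3, x4, x5, x6, x7, x8⟩ := xP_val (h := C.p.h) o1 o2 x
  have p1 : (2 : ℝ) ^ C.hp ≠ 0 := by positivity
  simp only [m03, vl, eW2, A.w, A.F, hP, dM, x6, x7, Nat.mul_eq, Nat.cast_mul, nc, cX, cZ, cPp, A.cs, A.mu]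
  simp only [Pt.M03, KK, SS, pt]
  push_cast
  field_simp
  ring

theorem v12 (t : ℕ) : vl C.b (.sm (nP C) (m12 R C t)) x = ((KK C * (pt R C x).M12 ((t : ℝ) / 2 ^ C.hp) : ℝ) : ℂ) := by
  obtain ⟨x1, x2, x3, x4, x5, x6, x7, x8⟩ := xP_val (h := C.p.h) o1 o2 x
  have p1 : (2 : ℝ) ^ C.hp ≠ 0 := by positivity
  simp only [m12, vl, eW2, A.w, A.F, hP, dM, x6, x7, Nat.mul_eq, Nat.cast_mul, nc, cX, cZ, cPp, A.cs, A.mu]
  simp only [Pt.M12, KK, SS, pt]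
  push_cast
  field_simp
  ring

theorem v13 (t : ℕ) : vl C.b (.sm (nP C) (m13 R C t)) x = ((KK C * (pt R C x).M13 ((t : ℝ) / 2 ^ C.hp) : ℝ) : ℂ) := by
  obtain ⟨x1, x2, x3, x4, x5, x6, x7, x8⟩ := xP_val (h := C.p.h) o1 o2 x
  have p1 : (2 : ℝ) ^ C.hp ≠ 0 := by positivity
  simp only [m13, vl, eW2, A.w, A.F, dP, hM, x5, x8, Nat.mul_eq, Nat.cast_mul, nc, cX, cZ, cPp, A.cs, A.mu]
  simp only [Pt.M13, KK, SS, pt]
  push_cast
  field_simp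
  ring

end

theorem okE_norm {C : TC} (hr : C.r ≤ C.b + 1) {E : Ex} (h : okE C E = true) (x : ℝ) : ‖vl C.b E x‖ ≤ C.e := by
  unfold okE at h
  rw [bb] at h
  refine (ok_norm C.b C.r hr E h.1 x).trans ?_
  exact_mod_cast (Nat.le_of_ble_eq_true h.2 : nrF C.b C.r (ev C.b E) ≤ C.e)

theorem aR_val {b r : ℕ} (hr : r ≤ b + 1) {e : ℤ × List (ℤ × ℤ)} (h : okR b r e = true) (x : ℝ) :
    vl b (aR b e) x = ((rv e x : ℝ) : ℂ) := rF_sound b r hr e h x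

/-- the values of `R` -/
structure RV (C : TC) : Prop where
  hr : C.r ≤ C.b + 1
  a00 : okR C.b C.r C.r00 = true
  a01 : okR C.b C.r C.r01 = true
  a02 : okR C.b C.r C.r02 = true
  a03 : okR C.b C.r C.r03 = true
  a11 : okR C.b C.r C.r11 = true
  a12 : okR C.b C.r C.r12 = true
  a13 : okR C.b C.r C.r13 = true
  a22 : okR C.b C.r C.r22 = true
  a23 : okR C.b C.r C.r23 = true
  a33 : okR C.b C.r C.r33 = true

section

variable {R : Rec} {T : TI} {C : TC} {x : ℝ} (A : AtV R C x) (o1 : okL C.b C.N C.l1 = true) (o2 : okL C.b C.N C.l2 = true)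
  (q : RV C)

include A o1 o2 q

theorem b00 (t : ℕ) (h : okE C (e00 R T C t) = true) :
    |KK C * ((pt R C x).M00 ((t : ℝ) / 2 ^ C.hp) - ((T.t2 : ℝ) + C.sg) / 100000) - SS C * (rv C.r00 x * rv C.r00 x)| ≤ C.e := by
  have h1 := okE_norm q.hr h x
  have h2 : vl C.b (e00 R T C t) x = ((KK C * ((pt R C x).M00 ((t : ℝ) / 2 ^ C.hp) - ((T.t2 : ℝ) + C.sg) / 100000) - SS C * (rv C.r00 x * rv C.r00 x) : ℝ) : ℂ) := by
    have h3 := v00 A o1 o2 t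
    unfold e00
    rw [vl, h3]
    simp only [vl, tC, aR_val q.hr q.a00 x, Nat.mul_eq, Nat.add_eq, Nat.cast_mul, Nat.cast_add, nc, cZ, cPp, cS]
    simp only [KK, SS]
    push_cast
    ring
  rw [h2, Complex.norm_real, Real.norm_eq_abs] at h1
  exact h1

theorem b01 (t : ℕ) (h : okE C (e01 R C t) = true) :
    |KK C * ((pt R C x).M01 ((t : ℝ) / 2 ^ C.hp)) - SS C * (rv C.r00 x * rv C.r01 x)| ≤ C.e := by
  have h1 := okE_norm q.hr h x
  have h2 : vl C.b (e01 R C t) x = ((KK C * ((pt R C x).M01 ((t : ℝ) / 2 ^ C.hp)) - SS C * (rv C.r00 x * rv C.r01 x) : ℝ) : ℂ) := by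
    have h3 := v01 A o1 o2 t
    unfold e01
    rw [vl, h3]
    simp only [vl, aR_val q.hr q.a00 x, aR_val q.hr q.a01 x, Nat.mul_eq, Nat.add_eq, Nat.cast_mul, Nat.cast_add, nc, cZ, cPp, cS]
    simp only [KK, SS]
    push_cast
    ring
  rw [h2, Complex.norm_real, Real.norm_eq_abs] at h1
  exact h1

theorem b02 (t : ℕ) (h : okE C (e02 R C t) = true) :
    |KK C * ((pt R C x).M02 ((t : ℝ) / 2 ^ C.hp)) - SS C * (rv C.r00 x * rv C.r02 x)| ≤ C.e := by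
  have h1 := okE_norm q.hr h x
  have h2 : vl C.b (e02 R C t) x = ((KK C * ((pt R C x).M02 ((t : ℝ) / 2 ^ C.hp)) - SS C * (rv C.r00 x * rv C.r02 x) : ℝ) : ℂ) := by
    have h3 := v02 A o1 o2 t
    unfold e02
    rw [vl, h3]
    simp only [vl, aR_val q.hr q.a00 x, aR_val q.hr q.a02 x, Nat.mul_eq, Nat.add_eq, Nat.cast_mul, Nat.cast_add, nc, cZ, cPp, cS]
    simp only [KK, SS]
    push_cast
    ring
  rw [h2, Complex.norm_real, Real.norm_eq_abs] at h1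
  exact h1

theorem b03 (t : ℕ) (h : okE C (e03 R C t) = true) :
    |KK C * ((pt R C x).M03 ((t : ℝ) / 2 ^ C.hp)) - SS C * (rv C.r00 x * rv C.r03 x)| ≤ C.e := by
  have h1 := okE_norm q.hr h x
  have h2 : vl C.b (e03 R C t) x = ((KK C * ((pt R C x).M03 ((t : ℝ) / 2 ^ C.hp)) - SS C * (rv C.r00 x * rv C.r03 x) : ℝ) : ℂ) := by
    have h3 := v03 A o1 o2 t
    unfold e03
    rw [vl, h3]
    simp only [vl, aR_val q.hr q.a00 x, aR_val q.hr q.a03 x, Nat.mul_eq, Nat.add_eq, Nat.cast_mul, Nat.cast_add, nc, cZ, cPp, cS]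
    simp only [KK, SS]
    push_cast
    ring
  rw [h2, Complex.norm_real, Real.norm_eq_abs] at h1
  exact h1

theorem b11 (t : ℕ) (h : okE C (e11 R T C t) = true) :
    |KK C * ((pt R C x).M11 ((t : ℝ) / 2 ^ C.hp) - ((T.t3 : ℝ) + C.sg) / 100000) - SS C * (rv C.r01 x * rv C.r01 x + rv C.r11 x * rv C.r11 x)| ≤ C.e := by
  have h1 := okE_norm q.hr h x
  have h2 : vl C.b (e11 R T C t) x = ((KK C * ((pt R C x).M11 ((t : ℝ) / 2 ^ C.hp) - ((T.t3 : ℝ) + C.sg) / 100000) - SS C * (rv C.r01 x * rv C.r01 x + rv C.r11 x * rv C.r11 x) : ℝ) : ℂ) := by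
    have h3 := v11 A o1 o2 t
    unfold e11
    rw [vl, h3]
    simp only [vl, tC, aR_val q.hr q.a01 x, aR_val q.hr q.a11 x, Nat.mul_eq, Nat.add_eq, Nat.cast_mul, Nat.cast_add, nc, cZ, cPp, cS]
    simp only [KK, SS]
    push_cast
    ring
  rw [h2, Complex.norm_real, Real.norm_eq_abs] at h1
  exact h1

theorem b12 (t : ℕ) (h : okE C (e12 R C t) = true) :
    |KK C * ((pt R C x).M12 ((t : ℝ) / 2 ^ C.hp)) - SS C * (rv C.r01 x * rv C.r02 x + rv C.r11 x * rv C.r12 x)| ≤ C.e := by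
  have h1 := okE_norm q.hr h x
  have h2 : vl C.b (e12 R C t) x = ((KK C * ((pt R C x).M12 ((t : ℝ) / 2 ^ C.hp)) - SS C * (rv C.r01 x * rv C.r02 x + rv C.r11 x * rv C.r12 x) : ℝ) : ℂ) := by
    have h3 := v12 A o1 o2 t
    unfold e12
    rw [vl, h3]
    simp only [vl, aR_val q.hr q.a01 x, aR_val q.hr q.a02 x, aR_val q.hr q.a11 x, aR_val q.hr q.a12 x, Nat.mul_eq, Nat.add_eq, Nat.cast_mul, Nat.cast_add, nc, cZ, cPp, cS]
    simp only [KK, SS]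
    push_cast
    ring
  rw [h2, Complex.norm_real, Real.norm_eq_abs] at h1
  exact h1

theorem b13 (t : ℕ) (h : okE C (e13 R C t) = true) :
    |KK C * ((pt R C x).M13 ((t : ℝ) / 2 ^ C.hp)) - SS C * (rv C.r01 x * rv C.r03 x + rv C.r11 x * rv C.r13 x)| ≤ C.e := by
  have h1 := okE_norm q.hr h x
  have h2 : vl C.b (e13 R C t) x = ((KK C * ((pt R C x).M13 ((t : ℝ) / 2 ^ C.hp)) - SS C * (rv C.r01 x * rv C.r03 x + rv C.r11 x * rv C.r13 x) : ℝ) : ℂ) := by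
    have h3 := v13 A o1 o2 t
    unfold e13
    rw [vl, h3]
    simp only [vl, aR_val q.hr q.a01 x, aR_val q.hr q.a03 x, aR_val q.hr q.a11 x, aR_val q.hr q.a13 x, Nat.mul_eq, Nat.add_eq, Nat.cast_mul, Nat.cast_add, nc, cZ, cPp, cS]
    simp only [KK, SS]
    push_cast
    ring
  rw [h2, Complex.norm_real, Real.norm_eq_abs] at h1
  exact h1

theorem b22 (h : okE C (e22 R T C) = true) :
    |KK C * ((pt R C x).M22 - ((T.tz : ℝ) + C.sg) / 100000) - SS C * (rv C.r02 x * rv C.r02 x + rv C.r12 x * rv C.r12 x + rv C.r22 x * rv C.r22 x)| ≤ C.e := by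
  have h1 := okE_norm q.hr h x
  have h2 : vl C.b (e22 R T C) x = ((KK C * ((pt R C x).M22 - ((T.tz : ℝ) + C.sg) / 100000) - SS C * (rv C.r02 x * rv C.r02 x + rv C.r12 x * rv C.r12 x + rv C.r22 x * rv C.r22 x) : ℝ) : ℂ) := by
    have h3 := v22 A o1 o2
    unfold e22
    rw [vl, h3]
    simp only [vl, tC, aR_val q.hr q.a02 x, aR_val q.hr q.a12 x, aR_val q.hr q.a22 x, Nat.mul_eq, Nat.add_eq, Nat.cast_mul, Nat.cast_add, nc, cZ, cPp, cS]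
    simp only [KK, SS]
    push_cast
    ring
  rw [h2, Complex.norm_real, Real.norm_eq_abs] at h1
  exact h1

theorem b23 (h : okE C (e23 R C) = true) :
    |KK C * ((pt R C x).M23) - SS C * (rv C.r02 x * rv C.r03 x + rv C.r12 x * rv C.r13 x + rv C.r22 x * rv C.r23 x)| ≤ C.e := by
  have h1 := okE_norm q.hr h x
  have h2 : vl C.b (e23 R C) x = ((KK C * ((pt R C x).M23) - SS C * (rv C.r02 x * rv C.r03 x + rv C.r12 x * rv C.r13 x + rv C.r22 x * rv C.r23 x) : ℝ) : ℂ) := by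
    have h3 := v23 A o1 o2
    unfold e23
    rw [vl, h3]
    simp only [vl, aR_val q.hr q.a02 x, aR_val q.hr q.a03 x, aR_val q.hr q.a12 x, aR_val q.hr q.a13 x, aR_val q.hr q.a22 x, aR_val q.hr q.a23 x, Nat.mul_eq, Nat.add_eq, Nat.cast_mul, Nat.cast_add, nc, cZ, cPp, cS]
    simp only [KK, SS]
    push_cast
    ring
  rw [h2, Complex.norm_real, Real.norm_eq_abs] at h1
  exact h1

theorem b33 (h : okE C (e33 R T C) = true) :
    |KK C * ((pt R C x).M33 - ((T.tz : ℝ) + C.sg) / 100000) - SS C * (rv C.r03 x * rv C.r03 x + rv C.r13 x * rv C.r13 x + rv C.r23 x * rv C.r23 x + rv C.r33 x * rv C.r33 x)| ≤ C.e := by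
  have h1 := okE_norm q.hr h x
  have h2 : vl C.b (e33 R T C) x = ((KK C * ((pt R C x).M33 - ((T.tz : ℝ) + C.sg) / 100000) - SS C * (rv C.r03 x * rv C.r03 x + rv C.r13 x * rv C.r13 x + rv C.r23 x * rv C.r23 x + rv C.r33 x * rv C.r33 x) : ℝ) : ℂ) := by
    have h3 := v33 A o1 o2
    unfold e33
    rw [vl, h3]
    simp only [vl, tC, aR_val q.hr q.a03 x, aR_val q.hr q.a13 x, aR_val q.hr q.a23 x, aR_val q.hr q.a33 x, Nat.mul_eq, Nat.add_eq, Nat.cast_mul, Nat.cast_add, nc, cZ, cPp, cS]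
    simp only [KK, SS]
    push_cast
    ring
  rw [h2, Complex.norm_real, Real.norm_eq_abs] at h1
  exact h1

end

end Pool.Agent.Helper56.TS
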