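import Pool.Agent.Helper56.SH.TSF

/-!
# Project RC, SHARP, tail symbol: the theorem

`TS_of : okTS R T C = true → TS T.tsc D` for the cell `D` of the record `R`.
-/

set_option autoImplicit false

open Helper49.LT hiding sg

namespace Pool.Agent.Helper56.TS

open Helper76.RC.TPoly Helper54.RC.Fast Helper76.RC.ExpF Helper76.RC.TrD
open Helper49.Cell
open Helper41.SH (IA inv)
open Helper95.SH (CD)
open Helper95.RC (Lf)
open Pool.Agent.Helper75.SH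

theorem conv' (f : ℝ → ℝ) (hf : ∀ τ, f τ = f 0 + (f 1 - f 0) * τ) {e t τ : ℝ} (h1 : |f t| ≤ e) (h2 : |f (t + 1)| ≤ e)
    (h3 : t ≤ τ) (h4 : τ ≤ t + 1) : |f τ| ≤ e := by
  rw [hf] at h1 h2 ⊢
  exact conv _ _ h1 h2 h3 h4

/-- the matrix inequality at a point -/
def MI (a : Pt) (s tz t2 t3 : ℝ) : Prop := ∀ b2 b3 x y : ℝ,
  t2 * b2 ^ 2 + t3 * b3 ^ 2 + tz * (x ^ 2 + y ^ 2) ≤
    a.M00 s * b2 ^ 2 + a.M11 s * b3 ^ 2 + a.M22 * x ^ 2 + a.M33 * y ^ 2 + 2 * a.M01 s * (b2 * b3) + 2 * a.M02 s * (b2 * x)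
      + 2 * a.M03 s * (b2 * y) + 2 * a.M12 s * (b3 * x) + 2 * a.M13 s * (b3 * y) + 2 * a.M23 * (x * y)

/-- the algebra of the certificate -/
theorem mi_alg {K S σ e m00 m11 m22 m33 m01 m02 m03 m12 m13 m23 t2 t3 tz r00 r01 r02 r03 r11 r12 r13 r22 r23 r33 : ℝ}
    (pS : 0 < S) (pK : 0 < K) (hσ : 4 * e ≤ K * σ)
    (d00 : |K * (m00 - (t2 + σ)) - S * (r00 * r00)| ≤ e)
    (d01 : |K * m01 - S * (r00 * r01)| ≤ e)
    (d02 : |K * m02 - S * (r00 * r02)| ≤ e)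
    (d03 : |K * m03 - S * (r00 * r03)| ≤ e)
    (d11 : |K * (m11 - (t3 + σ)) - S * (r01 * r01 + r11 * r11)| ≤ e)
    (d12 : |K * m12 - S * (r01 * r02 + r11 * r12)| ≤ e)
    (d13 : |K * m13 - S * (r01 * r03 + r11 * r13)| ≤ e)
    (d22 : |K * (m22 - (tz + σ)) - S * (r02 * r02 + r12 * r12 + r22 * r22)| ≤ e)
    (d23 : |K * m23 - S * (r02 * r03 + r12 * r13 + r22 * r23)| ≤ e)
    (d33 : |K * (m33 - (tz + σ)) - S * (r03 * r03 + r13 * r13 + r23 * r23 + r33 * r33)| ≤ e)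
    (b2 b3 u v : ℝ) :
    t2 * b2 ^ 2 + t3 * b3 ^ 2 + tz * (u ^ 2 + v ^ 2) ≤
      m00 * b2 ^ 2 + m11 * b3 ^ 2 + m22 * u ^ 2 + m33 * v ^ 2 + 2 * m01 * (b2 * b3) + 2 * m02 * (b2 * u)
      + 2 * m03 * (b2 * v) + 2 * m12 * (b3 * u) + 2 * m13 * (b3 * v) + 2 * m23 * (u * v) := by
  have f00 := diagd (a := b2) d00
  have f11 := diagd (a := b3) d11
  have f22 := diagd (a := u) d22
  have f33 := diagd (a := v) d33
  have f01 := offd (a := b2) (b := b3) d01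
  have f02 := offd (a := b2) (b := u) d02
  have f03 := offd (a := b2) (b := v) d03
  have f12 := offd (a := b3) (b := u) d12
  have f13 := offd (a := b3) (b := v) d13
  have f23 := offd (a := u) (b := v) d23
  have sq1 := mul_nonneg pS.le (sq_nonneg (r00 * b2 + r01 * b3 + r02 * u + r03 * v))
  have sq2 := mul_nonneg pS.le (sq_nonneg (r11 * b3 + r12 * u + r13 * v))
  have sq3 := mul_nonneg pS.le (sq_nonneg (r22 * u + r23 * v))
  have sq4 := mul_nonneg pS.le (sq_nonneg (r33 * v))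
  have n0 : 0 ≤ b2 ^ 2 + b3 ^ 2 + (u ^ 2 + v ^ 2) := by positivity
  have hk := mul_le_mul_of_nonneg_right hσ n0
  have id : K * ((m00 * b2 ^ 2 + m11 * b3 ^ 2 + m22 * u ^ 2 + m33 * v ^ 2 + 2 * m01 * (b2 * b3) + 2 * m02 * (b2 * u)
      + 2 * m03 * (b2 * v) + 2 * m12 * (b3 * u) + 2 * m13 * (b3 * v) + 2 * m23 * (u * v))
      - (t2 * b2 ^ 2 + t3 * b3 ^ 2 + tz * (u ^ 2 + v ^ 2)))
      = K * σ * (b2 ^ 2 + b3 ^ 2 + (u ^ 2 + v ^ 2))
        + (K * (m00 - (t2 + σ)) - S * (r00 * r00)) * b2 ^ 2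
        + (K * (m11 - (t3 + σ)) - S * (r01 * r01 + r11 * r11)) * b3 ^ 2
        + (K * (m22 - (tz + σ)) - S * (r02 * r02 + r12 * r12 + r22 * r22)) * u ^ 2
        + (K * (m33 - (tz + σ)) - S * (r03 * r03 + r13 * r13 + r23 * r23 + r33 * r33)) * v ^ 2
        + 2 * (K * m01 - S * (r00 * r01)) * (b2 * b3)
        + 2 * (K * m02 - S * (r00 * r02)) * (b2 * u)
        + 2 * (K * m03 - S * (r00 * r03)) * (b2 * v)
        + 2 * (K * m12 - S * (r01 * r02 + r11 * r12)) * (b3 * u)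
        + 2 * (K * m13 - S * (r01 * r03 + r11 * r13)) * (b3 * v)
        + 2 * (K * m23 - S * (r02 * r03 + r12 * r13 + r22 * r23)) * (u * v)
        + S * (r00 * b2 + r01 * b3 + r02 * u + r03 * v) ^ 2 + S * (r11 * b3 + r12 * u + r13 * v) ^ 2
        + S * (r22 * u + r23 * v) ^ 2 + S * (r33 * v) ^ 2 := by ring
  have key : 0 ≤ K * ((m00 * b2 ^ 2 + m11 * b3 ^ 2 + m22 * u ^ 2 + m33 * v ^ 2 + 2 * m01 * (b2 * b3) + 2 * m02 * (b2 * u)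
      + 2 * m03 * (b2 * v) + 2 * m12 * (b3 * u) + 2 * m13 * (b3 * v) + 2 * m23 * (u * v))
      - (t2 * b2 ^ 2 + t3 * b3 ^ 2 + tz * (u ^ 2 + v ^ 2))) := by
    rw [id]
    have hk' : 4 * e * (b2 ^ 2 + b3 ^ 2 + (u ^ 2 + v ^ 2)) =
      e * b2 ^ 2 + e * b3 ^ 2 + e * u ^ 2 + e * v ^ 2 + e * (b2 ^ 2 + b3 ^ 2) + e * (b2 ^ 2 + u ^ 2) + e * (b2 ^ 2 + v ^ 2)
        + e * (b3 ^ 2 + u ^ 2) + e * (b3 ^ 2 + v ^ 2) + e * (u ^ 2 + v ^ 2) := by ring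
    rw [hk'] at hk
    linarith
  have := nonneg_of_mul_nonneg_right key pK
  linarith

theorem mi_of {R : Rec} {T : TI} {C : TC} {x : ℝ} (A : AtV R C x) (o1 : okL C.b C.N C.l1 = true)
    (o2 : okL C.b C.N C.l2 = true) (q : RV C)
    (h : okAll C [e00 R T C C.t, e00 R T C (Nat.succ C.t), e01 R C C.t, e01 R C (Nat.succ C.t),
                    e02 R C C.t, e02 R C (Nat.succ C.t), e03 R C C.t, e03 R C (Nat.succ C.t),
                    e11 R T C C.t, e11 R T C (Nat.succ C.t), e12 R C C.t, e12 R C (Nat.succ C.t),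
                    e13 R C C.t, e13 R C (Nat.succ C.t), e22 R T C, e23 R C, e33 R T C] = true)
    (ht1 : C.t * C.t ≤ 3 * Nat.pow 4 C.hp) (ht2 : 3 * Nat.pow 4 C.hp ≤ (C.t + 1) * (C.t + 1))
    (he : 4 * C.e ≤ nP C * (160 * nZ C * 1000000000000000) * C.sg) :
    MI (pt R C x) (Real.sqrt 3) ((T.tz : ℝ) / 100000) ((T.t2 : ℝ) / 100000) ((T.t3 : ℝ) / 100000) := by
  simp only [okAll, bb] at h
  obtain ⟨h00, h00', h01, h01', h02, h02', h03, h03', h11, h11', h12, h12', h13, h13', h22, h23, h33, -⟩ := h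
  -- `τ = 2 ^ hp √3`
  have s3 : Real.sqrt 3 ^ 2 = 3 := Real.sq_sqrt (by norm_num)
  have s0 : 0 ≤ Real.sqrt 3 := Real.sqrt_nonneg 3
  have pX : (0 : ℝ) < 2 ^ C.hp := by positivity
  have e4 : (4 : ℝ) ^ C.hp = (2 ^ C.hp) ^ 2 := by
    rw [← pow_mul, mul_comm, pow_mul]; norm_num
  have r1 : (C.t : ℝ) * C.t ≤ 3 * (2 ^ C.hp) ^ 2 := by
    rw [← e4]
    have : ((C.t * C.t : ℕ) : ℝ) ≤ ((3 * 4 ^ C.hp : ℕ) : ℝ) := by exact_mod_cast ht1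
    push_cast at this
    exact this
  have r2 : 3 * ((2 : ℝ) ^ C.hp) ^ 2 ≤ ((C.t : ℝ) + 1) * (C.t + 1) := by
    rw [← e4]
    have : ((3 * 4 ^ C.hp : ℕ) : ℝ) ≤ (((C.t + 1) * (C.t + 1) : ℕ) : ℝ) := by exact_mod_cast ht2
    push_cast at this
    exact this
  set τ := (2 : ℝ) ^ C.hp * Real.sqrt 3 with hτ
  have τ2 : τ ^ 2 = 3 * (2 ^ C.hp) ^ 2 := by rw [hτ, mul_pow, s3]; ring
  have τ0 : 0 ≤ τ := by positivity
  have t0 : (0 : ℝ) ≤ C.t := Nat.cast_nonneg _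
  have l1 : (C.t : ℝ) ≤ τ := by
    refine abs_le_of_sq_le_sq' ?_ τ0 |>.2
    rw [τ2]; nlinarith
  have l2 : τ ≤ (C.t : ℝ) + 1 := by
    refine abs_le_of_sq_le_sq' ?_ (by linarith) |>.2
    rw [τ2]; nlinarith
  have hs : τ / 2 ^ C.hp = Real.sqrt 3 := by rw [hτ]; field_simp
  have sc : ((Nat.succ C.t : ℕ) : ℝ) = (C.t : ℝ) + 1 := by push_cast; ring
  have c00 := b00 A o1 o2 q _ h00
  have c00' := b00 A o1 o2 q _ h00'
  have c01 := b01 A o1 o2 q _ h01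
  have c01' := b01 A o1 o2 q _ h01'
  have c02 := b02 A o1 o2 q _ h02
  have c02' := b02 A o1 o2 q _ h02'
  have c03 := b03 A o1 o2 q _ h03
  have c03' := b03 A o1 o2 q _ h03'
  have c11 := b11 A o1 o2 q _ h11
  have c11' := b11 A o1 o2 q _ h11'
  have c12 := b12 A o1 o2 q _ h12
  have c12' := b12 A o1 o2 q _ h12'
  have c13 := b13 A o1 o2 q _ h13
  have c13' := b13 A o1 o2 q _ h13'
  have c22 := b22 A o1 o2 q h22
  have c23 := b23 A o1 o2 q h23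
  have c33 := b33 A o1 o2 q h33
  rw [sc] at c00' c01' c02' c03' c11' c12' c13'
  have d00 := conv' (fun τ => KK C * ((pt R C x).M00 (τ / 2 ^ C.hp) - ((T.t2 : ℝ) + C.sg) / 100000)
    - SS C * (rv C.r00 x * rv C.r00 x)) (fun τ => by simp only [Pt.M00]; ring) c00 c00' l1 l2
  have d01 := conv' (fun τ => KK C * ((pt R C x).M01 (τ / 2 ^ C.hp)) - SS C * (rv C.r00 x * rv C.r01 x))
    (fun τ => by simp only [Pt.M01]; ring) c01 c01' l1 l2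
  have d02 := conv' (fun τ => KK C * ((pt R C x).M02 (τ / 2 ^ C.hp)) - SS C * (rv C.r00 x * rv C.r02 x))
    (fun τ => by simp only [Pt.M02]; ring) c02 c02' l1 l2
  have d03 := conv' (fun τ => KK C * ((pt R C x).M03 (τ / 2 ^ C.hp)) - SS C * (rv C.r00 x * rv C.r03 x))
    (fun τ => by simp only [Pt.M03]; ring) c03 c03' l1 l2
  have d11 := conv' (fun τ => KK C * ((pt R C x).M11 (τ / 2 ^ C.hp) - ((T.t3 : ℝ) + C.sg) / 100000)
    - SS C * (rv C.r01 x * rv C.r01 x + rv C.r11 x * rv C.r11 x)) (fun τ => by simp only [Pt.M11]; ring) c11 c11' l1 l2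
  have d12 := conv' (fun τ => KK C * ((pt R C x).M12 (τ / 2 ^ C.hp))
    - SS C * (rv C.r01 x * rv C.r02 x + rv C.r11 x * rv C.r12 x))
    (fun τ => by simp only [Pt.M12]; ring) c12 c12' l1 l2
  have d13 := conv' (fun τ => KK C * ((pt R C x).M13 (τ / 2 ^ C.hp))
    - SS C * (rv C.r01 x * rv C.r03 x + rv C.r11 x * rv C.r13 x))
    (fun τ => by simp only [Pt.M13]; ring) c13 c13' l1 l2
  simp only [hs] at d00 d01 d02 d03 d11 d12 d13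
  have pS : 0 < SS C := by unfold SS; positivity
  have pK : 0 < KK C := by unfold KK; positivity
  have hσ : 4 * (C.e : ℝ) ≤ KK C * ((C.sg : ℝ) / 100000) := by
    have h1 : ((4 * C.e : ℕ) : ℝ) ≤ ((nP C * (160 * nZ C * 1000000000000000) * C.sg : ℕ) : ℝ) := by exact_mod_cast he
    push_cast [cPp, cZ] at h1
    refine h1.trans (le_of_eq ?_)
    unfold KK SS
    ring
  intro b2 b3 u v
  set a := pt R C x with ha
  set s := Real.sqrt 3 with hs'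
  have g2 : ((T.t2 : ℝ) + C.sg) / 100000 = (T.t2 : ℝ) / 100000 + (C.sg : ℝ) / 100000 := by ring
  have g3 : ((T.t3 : ℝ) + C.sg) / 100000 = (T.t3 : ℝ) / 100000 + (C.sg : ℝ) / 100000 := by ring
  have gz : ((T.tz : ℝ) + C.sg) / 100000 = (T.tz : ℝ) / 100000 + (C.sg : ℝ) / 100000 := by ring
  rw [g2] at d00
  rw [g3] at d11
  rw [gz] at c22 c33
  exact mi_alg pS pK hσ d00 d01 d02 d03 d11 d12 d13 c22 c23 c33 b2 b3 u v

/-- the bounds of the constants -/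
structure Nm (c : TSc) (nu gg ag δ n2 n3 nx ny : ℝ) : Prop where
  l0 : 2 ≤ c.l0
  L : 2 ≤ c.L
  K : 2 ≤ c.K
  hp : 0 ≤ c.ga * nu * c.kap4
  hg : c.ga * nu * c.kap4 / 16 ≤ gg
  ha : gg * ((c.l0 + 1) / (c.l0 - 1)) + c.dlow + gg * δ ≤ ag
  h2 : c.be / nu * (1 / (c.L - 1)) + 1 / (c.L - 1) + c.kap / (c.L - 1) * (21 / 4) + 2 * ag ≤ n2
  h3 : c.be / nu * (c.L / (4 * (c.L - 1))) + 1 / (c.L - 1) / 4 + c.kap / (c.L - 1) * (75 / 8) + 49 / 8 * ag ≤ n3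
  hx : 1 / (c.K - 1) * (2 * (c.kap - 1) + 2 * (1 + c.th)) + 2 * ag ≤ nx
  hy : 1 / (c.K - 1) * (2 * (c.kap - 1) + 2 * (1 + 1 / c.th)) + 2 * ag ≤ ny

theorem nm_of {R : Rec} {T : TI} {C : TC} (h : okN R T C = true) :
    Nm T.tsc ((R.nu : ℝ) / 100000) ((C.g : ℝ) / 100000) ((C.ag : ℝ) / 100000) ((C.dl : ℝ) / 2 ^ C.p.s)
      ((C.n2 : ℝ) / 100000) ((C.n3 : ℝ) / 100000) ((C.nx : ℝ) / 100000) ((C.ny : ℝ) / 100000) := by
  have h := of_decide_eq_true h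
  obtain ⟨-, -, -, -, hnu, hl0, hL, hK, hth, k1, k2, k3, k4, k5, k6, -, -, -⟩ := h
  have enu : ((R.nu.toNat : ℕ) : ℝ) = (R.nu : ℝ) := toNat_cast hnu.le
  have rnu : (0 : ℝ) < R.nu := by exact_mod_cast hnu
  have rl0 : (2 : ℝ) ≤ T.l0 := by exact_mod_cast hl0
  have rL : (2 : ℝ) ≤ T.L := by exact_mod_cast hL
  have rK : (2 : ℝ) ≤ T.K := by exact_mod_cast hK
  have rth : (0 : ℝ) < T.th := by exact_mod_cast hth
  have cl0 : ((T.l0 - 1 : ℕ) : ℝ) = T.l0 - 1 := by push_cast [Nat.cast_sub (by omega : 1 ≤ T.l0)]; ring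
  have cL : ((T.L - 1 : ℕ) : ℝ) = T.L - 1 := by push_cast [Nat.cast_sub (by omega : 1 ≤ T.L)]; ring
  have cK : ((T.K - 1 : ℕ) : ℝ) = T.K - 1 := by push_cast [Nat.cast_sub (by omega : 1 ≤ T.K)]; ring
  have ps : (0 : ℝ) < 2 ^ C.p.s := by positivity
  have eps : ((Nat.pow 2 C.p.s : ℕ) : ℝ) = 2 ^ C.p.s := by
    show ((2 ^ C.p.s : ℕ) : ℝ) = _
    push_cast; rfl
  have q1 : (T.ga : ℝ) * R.nu * T.kap4 ≤ 160000000000 * C.g := by
    have : ((T.ga * R.nu.toNat * T.kap4 : ℕ) : ℝ) ≤ ((160000000000 * C.g : ℕ) : ℝ) := by exact_mod_cast k1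
    push_cast [enu] at this
    exact this
  have q2 : (C.g : ℝ) * (T.l0 + 1) * 2 ^ C.p.s + T.dlow * (T.l0 - 1) * 2 ^ C.p.s + C.g * C.dl * (T.l0 - 1) ≤
      C.ag * (T.l0 - 1) * 2 ^ C.p.s := by
    have : ((C.g * (T.l0 + 1) * Nat.pow 2 C.p.s + T.dlow * (T.l0 - 1) * Nat.pow 2 C.p.s + C.g * C.dl * (T.l0 - 1) : ℕ) : ℝ) ≤
      ((C.ag * (T.l0 - 1) * Nat.pow 2 C.p.s : ℕ) : ℝ) := by exact_mod_cast k2
    rw [Nat.cast_add, Nat.cast_add, Nat.cast_mul, Nat.cast_mul, Nat.cast_mul, Nat.cast_mul, Nat.cast_mul, Nat.cast_mul,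
      Nat.cast_mul, Nat.cast_mul, eps, cl0] at this
    push_cast at this
    exact this
  have q3 : 400000 * (T.be : ℝ) + 400000 * R.nu + 21 * T.kap * R.nu + 8 * C.ag * (T.L - 1) * R.nu ≤
      4 * C.n2 * (T.L - 1) * R.nu := by
    have : ((400000 * T.be + 400000 * R.nu.toNat + 21 * T.kap * R.nu.toNat + 8 * C.ag * (T.L - 1) * R.nu.toNat : ℕ) : ℝ) ≤
      ((4 * C.n2 * (T.L - 1) * R.nu.toNat : ℕ) : ℝ) := by exact_mod_cast k3
    simp only [Nat.cast_add, Nat.cast_mul, cL, enu] at this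
    push_cast at this
    exact this
  have q4 : 200000 * (T.L : ℝ) * T.be + 200000 * R.nu + 75 * T.kap * R.nu + 49 * C.ag * (T.L - 1) * R.nu ≤
      8 * C.n3 * (T.L - 1) * R.nu := by
    have : ((200000 * T.L * T.be + 200000 * R.nu.toNat + 75 * T.kap * R.nu.toNat + 49 * C.ag * (T.L - 1) * R.nu.toNat : ℕ) : ℝ) ≤
      ((8 * C.n3 * (T.L - 1) * R.nu.toNat : ℕ) : ℝ) := by exact_mod_cast k4
    simp only [Nat.cast_add, Nat.cast_mul, cL, enu] at this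
    push_cast at this
    exact this
  have q5 : 2 * (T.kap : ℝ) + 2 * T.th + 2 * C.ag * (T.K - 1) ≤ C.nx * (T.K - 1) := by
    have : ((2 * T.kap + 2 * T.th + 2 * C.ag * (T.K - 1) : ℕ) : ℝ) ≤ ((C.nx * (T.K - 1) : ℕ) : ℝ) := by exact_mod_cast k5
    simp only [Nat.cast_add, Nat.cast_mul, cK] at this
    push_cast at this
    exact this
  have q6 : 2 * (T.kap : ℝ) * T.th + 20000000000 + 2 * C.ag * (T.K - 1) * T.th ≤ C.ny * (T.K - 1) * T.th := by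
    have : ((2 * T.kap * T.th + 20000000000 + 2 * C.ag * (T.K - 1) * T.th : ℕ) : ℝ) ≤ ((C.ny * (T.K - 1) * T.th : ℕ) : ℝ) := by
      exact_mod_cast k6
    simp only [Nat.cast_add, Nat.cast_mul, cK] at this
    push_cast at this
    exact this
  have l1 : (0 : ℝ) < T.l0 - 1 := by linarith
  have L1 : (0 : ℝ) < T.L - 1 := by linarith
  have K1 : (0 : ℝ) < T.K - 1 := by linarith
  refine ⟨hl0, hL, hK, ?_, ?_, ?_, ?_, ?_, ?_, ?_⟩
  · show 0 ≤ (T.ga : ℝ) / 100000 * (R.nu / 100000) * (T.kap4 / 100000)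
    positivity
  · show (T.ga : ℝ) / 100000 * (R.nu / 100000) * (T.kap4 / 100000) / 16 ≤ C.g / 100000
    linarith
  · show (C.g : ℝ) / 100000 * (((T.l0 : ℝ) + 1) / (T.l0 - 1)) + T.dlow / 100000 + C.g / 100000 * (C.dl / 2 ^ C.p.s) ≤ C.ag / 100000
    have e : (C.ag : ℝ) / 100000 - ((C.g : ℝ) / 100000 * (((T.l0 : ℝ) + 1) / (T.l0 - 1)) + T.dlow / 100000
        + C.g / 100000 * (C.dl / 2 ^ C.p.s))
        = (C.ag * (T.l0 - 1) * 2 ^ C.p.s - (C.g * (T.l0 + 1) * 2 ^ C.p.s + T.dlow * (T.l0 - 1) * 2 ^ C.p.s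
          + C.g * C.dl * (T.l0 - 1))) / (100000 * (T.l0 - 1) * 2 ^ C.p.s) := by
      field_simp
      try ring
    have : 0 ≤ (C.ag : ℝ) / 100000 - ((C.g : ℝ) / 100000 * (((T.l0 : ℝ) + 1) / (T.l0 - 1)) + T.dlow / 100000
        + C.g / 100000 * (C.dl / 2 ^ C.p.s)) := by
      rw [e]
      exact div_nonneg (by linarith) (by positivity)
    linarith
  · show (T.be : ℝ) / 100000 / (R.nu / 100000) * (1 / (T.L - 1)) + 1 / (T.L - 1) + T.kap / 100000 / (T.L - 1) * (21 / 4)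
      + 2 * (C.ag / 100000) ≤ C.n2 / 100000
    have e : (C.n2 : ℝ) / 100000 - ((T.be : ℝ) / 100000 / (R.nu / 100000) * (1 / (T.L - 1)) + 1 / (T.L - 1)
        + T.kap / 100000 / (T.L - 1) * (21 / 4) + 2 * (C.ag / 100000))
        = (4 * C.n2 * (T.L - 1) * R.nu - (400000 * (T.be : ℝ) + 400000 * R.nu + 21 * T.kap * R.nu
          + 8 * C.ag * (T.L - 1) * R.nu)) / (400000 * (T.L - 1) * R.nu) := by
      field_simp
      try ring
    have : 0 ≤ (C.n2 : ℝ) / 100000 - ((T.be : ℝ) / 100000 / (R.nu / 100000) * (1 / (T.L - 1)) + 1 / (T.L - 1)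
        + T.kap / 100000 / (T.L - 1) * (21 / 4) + 2 * (C.ag / 100000)) := by
      rw [e]
      exact div_nonneg (by linarith) (by positivity)
    linarith
  · show (T.be : ℝ) / 100000 / (R.nu / 100000) * (T.L / (4 * (T.L - 1))) + 1 / (T.L - 1) / 4 + T.kap / 100000 / (T.L - 1) * (75 / 8)
      + 49 / 8 * (C.ag / 100000) ≤ C.n3 / 100000
    have e : (C.n3 : ℝ) / 100000 - ((T.be : ℝ) / 100000 / (R.nu / 100000) * (T.L / (4 * (T.L - 1))) + 1 / (T.L - 1) / 4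
        + T.kap / 100000 / (T.L - 1) * (75 / 8) + 49 / 8 * (C.ag / 100000))
        = (8 * C.n3 * (T.L - 1) * R.nu - (200000 * (T.L : ℝ) * T.be + 200000 * R.nu + 75 * T.kap * R.nu
          + 49 * C.ag * (T.L - 1) * R.nu)) / (800000 * (T.L - 1) * R.nu) := by
      field_simp
      try ring
    have : 0 ≤ (C.n3 : ℝ) / 100000 - ((T.be : ℝ) / 100000 / (R.nu / 100000) * (T.L / (4 * (T.L - 1))) + 1 / (T.L - 1) / 4
        + T.kap / 100000 / (T.L - 1) * (75 / 8) + 49 / 8 * (C.ag / 100000)) := by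
      rw [e]
      exact div_nonneg (by linarith) (by positivity)
    linarith
  · show 1 / ((T.K : ℝ) - 1) * (2 * (T.kap / 100000 - 1) + 2 * (1 + T.th / 100000)) + 2 * (C.ag / 100000) ≤ C.nx / 100000
    have e : (C.nx : ℝ) / 100000 - (1 / ((T.K : ℝ) - 1) * (2 * (T.kap / 100000 - 1) + 2 * (1 + T.th / 100000))
        + 2 * (C.ag / 100000))
        = (C.nx * (T.K - 1) - (2 * (T.kap : ℝ) + 2 * T.th + 2 * C.ag * (T.K - 1))) / (100000 * (T.K - 1)) := by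
      field_simp
      try ring
    have : 0 ≤ (C.nx : ℝ) / 100000 - (1 / ((T.K : ℝ) - 1) * (2 * (T.kap / 100000 - 1) + 2 * (1 + T.th / 100000))
        + 2 * (C.ag / 100000)) := by
      rw [e]
      exact div_nonneg (by linarith) (by positivity)
    linarith
  · show 1 / ((T.K : ℝ) - 1) * (2 * (T.kap / 100000 - 1) + 2 * (1 + 1 / (T.th / 100000))) + 2 * (C.ag / 100000) ≤ C.ny / 100000
    have e : (C.ny : ℝ) / 100000 - (1 / ((T.K : ℝ) - 1) * (2 * (T.kap / 100000 - 1) + 2 * (1 + 1 / (T.th / 100000)))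
        + 2 * (C.ag / 100000))
        = (C.ny * (T.K - 1) * T.th - (2 * (T.kap : ℝ) * T.th + 20000000000 + 2 * C.ag * (T.K - 1) * T.th))
          / (100000 * (T.K - 1) * T.th) := by
      field_simp
      try ring
    have : 0 ≤ (C.ny : ℝ) / 100000 - (1 / ((T.K : ℝ) - 1) * (2 * (T.kap / 100000 - 1) + 2 * (1 + 1 / (T.th / 100000)))
        + 2 * (C.ag / 100000)) := by
      rw [e]
      exact div_nonneg (by linarith) (by positivity)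
    linarith

/-- the form at `x`, in coordinates -/
theorem norm_sq' (z : ℂ) : ‖z‖ ^ 2 = z.re ^ 2 + z.im ^ 2 := by
  rw [← Complex.normSq_eq_norm_sq, Complex.normSq_apply]
  ring

/-- the final algebra: the half sum, families bounded by `G` (the four terms of `fam_sum`) -/
theorem fin_alg {a : Pt} {s c9 be nu L K kap th ag tz t2 t3 b2 b3 x y G1 G2 S1 S2 : ℝ}
    (hc9 : c9 = 9 - a.cs)
    (h2 : be / nu * (1 / (L - 1)) + 1 / (L - 1) + kap / (L - 1) * (21 / 4) + 2 * ag ≤ a.n2)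
    (h3 : be / nu * (L / (4 * (L - 1))) + 1 / (L - 1) / 4 + kap / (L - 1) * (75 / 8) + 49 / 8 * ag ≤ a.n3)
    (hx : 1 / (K - 1) * (2 * (kap - 1) + 2 * (1 + th)) + 2 * ag ≤ a.nx)
    (hy : 1 / (K - 1) * (2 * (kap - 1) + 2 * (1 + 1 / th)) + 2 * ag ≤ a.ny)
    (hM : MI a s tz t2 t3)
    (hG : G1 + G2 ≤ ag * (4 * b2 ^ 2 + 49 / 4 * b3 ^ 2 + 4 * (x ^ 2 + y ^ 2))
      - a.g * ((-(1 / 2) * (a.v.p1 + a.v.p1' + (a.v.p2 + a.v.p2')) - s / 2 * (a.v.q1 + a.v.q1' - (a.v.q2 + a.v.q2'))) * b2 ^ 2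
        + (47 / 16 * (a.v.p1 + a.v.p1' + (a.v.p2 + a.v.p2')) + s / 2 * (a.v.q1 + a.v.q1' - (a.v.q2 + a.v.q2'))) * b3 ^ 2
        + 2 * (5 * s / 8 * (a.v.p1 + a.v.p1' - (a.v.p2 + a.v.p2')) - 11 / 8 * (a.v.q1 + a.v.q1' + (a.v.q2 + a.v.q2'))) * (b2 * b3)
        + (a.v.p1 + a.v.p1' + (a.v.p2 + a.v.p2')) * (x ^ 2 - y ^ 2) + 2 * (a.v.q1 + a.v.q1' + (a.v.q2 + a.v.q2')) * (x * y)
        + 2 * (1 / 2 * (a.v.p1 - a.v.p1' + (a.v.p2 - a.v.p2')) - s / 2 * (a.v.q1 - a.v.q1' - (a.v.q2 - a.v.q2'))) * (b2 * x)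
        + 2 * (1 / 2 * (a.v.q1 - a.v.q1' + (a.v.q2 - a.v.q2')) + s / 2 * (a.v.p1 - a.v.p1' - (a.v.p2 - a.v.p2'))) * (b2 * y)
        + 2 * (s * (a.v.p1 - a.v.p1' - (a.v.p2 - a.v.p2')) + 1 / 4 * (a.v.q1 - a.v.q1' + (a.v.q2 - a.v.q2'))) * (b3 * x)
        + 2 * (s * (a.v.q1 - a.v.q1' - (a.v.q2 - a.v.q2')) - 1 / 4 * (a.v.p1 - a.v.p1' + (a.v.p2 - a.v.p2'))) * (b3 * y)))
    (e1 : S1 = c9 * (a.w * (b2 ^ 2 + b3 ^ 2)) + a.F * (a.f * (3 / 2 * x ^ 2 + 1 / 2 * y ^ 2) - 1 * b2 ^ 2 - 3 / 2 * b3 ^ 2)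
      + 3 / 4 * a.mu * b2 ^ 2
      - a.w ^ 2 * (be / nu * (L / (4 * (L - 1)) * b3 ^ 2 + 1 / (L - 1) * b2 ^ 2) + 1 / (L - 1) * (b2 ^ 2 + b3 ^ 2 / 4)
        + kap / (L - 1) * (21 / 4 * b2 ^ 2 + 75 / 8 * b3 ^ 2)
        + 1 / (K - 1) * (2 * (kap - 1) * (x ^ 2 + y ^ 2) + 2 * (1 + th) * x ^ 2 + 2 * (1 + 1 / th) * y ^ 2))
      - a.w ^ 2 * G1)
    (e2 : S2 = c9 * (a.w * (b2 ^ 2 + b3 ^ 2)) + a.F * (a.f * (3 / 2 * x ^ 2 + 1 / 2 * y ^ 2) - 1 * b2 ^ 2 - 3 / 2 * b3 ^ 2)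
      + 3 / 4 * a.mu * b2 ^ 2
      - a.w ^ 2 * (be / nu * (L / (4 * (L - 1)) * b3 ^ 2 + 1 / (L - 1) * b2 ^ 2) + 1 / (L - 1) * (b2 ^ 2 + b3 ^ 2 / 4)
        + kap / (L - 1) * (21 / 4 * b2 ^ 2 + 75 / 8 * b3 ^ 2)
        + 1 / (K - 1) * (2 * (kap - 1) * (x ^ 2 + y ^ 2) + 2 * (1 + th) * x ^ 2 + 2 * (1 + 1 / th) * y ^ 2))
      - a.w ^ 2 * G2) :
    2 * (tz * (x ^ 2 + y ^ 2) + t2 * b2 ^ 2 + t3 * b3 ^ 2) ≤ S1 + S2 := by
  have m := hM b2 b3 x y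
  have w0 : 0 ≤ a.w ^ 2 := sq_nonneg _
  have k1 := mul_le_mul_of_nonneg_left hG w0
  have k2 := mul_le_mul_of_nonneg_left (mul_le_mul_of_nonneg_right h2 (sq_nonneg b2)) w0
  have k3 := mul_le_mul_of_nonneg_left (mul_le_mul_of_nonneg_right h3 (sq_nonneg b3)) w0
  have k4 := mul_le_mul_of_nonneg_left (mul_le_mul_of_nonneg_right hx (sq_nonneg x)) w0
  have k5 := mul_le_mul_of_nonneg_left (mul_le_mul_of_nonneg_right hy (sq_nonneg y)) w0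
  simp only [Pt.M00, Pt.M11, Pt.M01, Pt.M22, Pt.M33, Pt.M23, Pt.M02, Pt.M03, Pt.M12, Pt.M13] at m
  rw [e1, e2, hc9]
  generalize 1 / (L - 1) = iL at *
  generalize L / (4 * (L - 1)) = iL4 at *
  generalize kap / (L - 1) = kL at *
  generalize 1 / (K - 1) = iK at *
  generalize 1 / th = ith at *
  generalize be / nu = bn at *
  linarith

/-- **THE TAIL SYMBOL OF A CELL** -/
theorem TS_of {R : Rec} {T : TI} {C : TC} (h : okTS R T C = true) {lo hi bb' : ℝ} (ho : R.cb.Ok lo hi bb')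
    (D : CD) (hP : D.P = R.par) (hf : D.L.f = R.cb.f) (hp2 : D.L.p2 = 1) (hp3 : D.L.p3 = 3 / 2)
    (hT1 : D.Th1 = Th 1000 R.D1) (hT2 : D.Th2 = Th 1000 R.D2) (hm1 : D.mu1 = (R.mu1 : ℝ) / 100000)
    (hm2 : D.mu2 = (R.mu2 : ℝ) / 100000) : TS T.tsc D := by
  unfold okTS at h
  simp only [bb] at h
  obtain ⟨hN, hr, hT, hV1, hV2, hL1, hL2, hR, hE⟩ := h
  have hr : C.r ≤ C.b + 1 := Nat.le_of_ble_eq_true hr
  have nm := nm_of hN
  have hN' := of_decide_eq_true hN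
  obtain ⟨c1, c2, c3, c4, -, -, -, -, -, -, -, -, -, -, -, ht1, ht2, he⟩ := hN'
  unfold okRs at hR
  simp only [bb] at hR
  obtain ⟨a00, a01, a02, a03, a11, a12, a13, a22, a23, a33⟩ := hR
  have q : RV C := ⟨hr, a00, a01, a02, a03, a11, a12, a13, a22, a23, a33⟩
  intro x b2 b3 z
  have A := atV c1 c2 c3 c4 hT x
  have hM := mi_of A hL1 hL2 q hE ht1 ht2 he
  have wp : R.par.w (x + Real.pi) = R.par.w x := Pool.Agent.Helper20.RC.wR_per _ _ _ _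
  have fp : R.cb.f (x + Real.pi) = R.cb.f x := by
    show R.cb.al - R.cb.be * ‖R.cb.z0 (x + Real.pi)‖ ^ 2 = R.cb.al - R.cb.be * ‖R.cb.z0 x‖ ^ 2
    rw [ho.pz, norm_neg]
  have s3 : Real.sqrt 3 ^ 2 = 3 := Real.sq_sqrt (by norm_num)
  -- the four families
  have j1 : ((jn true : ℕ) : ℝ) = 1 := by show ((1 : ℕ) : ℝ) = 1; norm_num
  have j2 : ((jn false : ℕ) : ℝ) = 2 := by show ((2 : ℕ) : ℝ) = 2; norm_num
  have w1 : ∀ u, ‖VV C.p.h C.N C.l1 u - ee (inv (Th 1000 R.D1) (u + Real.pi / 3) - u) ^ 2‖ ≤ (C.dl : ℝ) / 2 ^ C.p.s := by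
    intro u
    have := okV_sound C.p true R.D1 C.N C.dl C.l1 hV1 ho.i1 u
    rw [j1, one_mul] at this
    exact this
  have w2 : ∀ u, ‖VV C.p.h C.N C.l2 u - ee (inv (Th 1000 R.D2) (u + 2 * Real.pi / 3) - u) ^ 2‖ ≤ (C.dl : ℝ) / 2 ^ C.p.s := by
    intro u
    have := okV_sound C.p false R.D2 C.N C.dl C.l2 hV2 ho.i2 u
    rw [j2] at this
    exact this
  have enu : D.P.nu = (R.nu : ℝ) / 100000 := by rw [hP]; rfl
  have hcs : D.P.cs = (R.cs : ℝ) / 100000 := by rw [hP]; rfl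
  have hmm : D.P.m = (R.m : ℝ) / 100000 := by rw [hP]; rfl
  have hll : D.P.lam = (R.lam : ℝ) / 100000 := by rw [hP]; rfl
  have hw : D.P.w = R.par.w := by rw [hP]
  have t1 := tsg_le T.tsc nm.l0 nm.hp nm.hg nm.ha (norm_ee _) (w1 x) (g1L b2 b3 z)
  have t2 := tsg_le T.tsc nm.l0 nm.hp nm.hg nm.ha (norm_ee _) (w2 x) (g2L b2 b3 z)
  have t3 := tsg_le T.tsc nm.l0 nm.hp nm.hg nm.ha (norm_ee _) (w1 (x + Real.pi)) (g1L b2 b3 (-z))
  have t4 := tsg_le T.tsc nm.l0 nm.hp nm.hg nm.ha (norm_ee _) (w2 (x + Real.pi)) (g2L b2 b3 (-z))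
  rw [g1L_eq, gsq] at t1 t3
  rw [g2L_eq, gsq] at t2 t4
  rw [← g1L_eq] at t1 t3
  rw [← g2L_eq] at t2 t4
  rw [Complex.neg_re, Complex.neg_im] at t3 t4
  have fs := fam_sum s3 ((C.ag : ℝ) / 100000) ((C.g : ℝ) / 100000) b2 b3 z.re z.im
    (VV C.p.h C.N C.l1 x).re (VV C.p.h C.N C.l1 x).im (VV C.p.h C.N C.l1 (x + Real.pi)).re (VV C.p.h C.N C.l1 (x + Real.pi)).im
    (VV C.p.h C.N C.l2 x).re (VV C.p.h C.N C.l2 x).im (VV C.p.h C.N C.l2 (x + Real.pi)).re (VV C.p.h C.N C.l2 (x + Real.pi)).im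
  rw [norm_sq' z]
  refine fin_alg (a := pt R C x) (s := Real.sqrt 3) (c9 := 9 - (R.cs : ℝ) / 100000) (be := T.tsc.be)
    (nu := (R.nu : ℝ) / 100000) (L := (T.tsc.L : ℝ)) (K := (T.tsc.K : ℝ)) (kap := T.tsc.kap) (th := T.tsc.th)
    (ag := (C.ag : ℝ) / 100000)
    (G1 := TSg T.tsc D.P.nu (g1L b2 b3 z) (ee (inv D.Th1 (x + Real.pi / 3) - x))
      + TSg T.tsc D.P.nu (g2L b2 b3 z) (ee (inv D.Th2 (x + 2 * Real.pi / 3) - x)))
    (G2 := TSg T.tsc D.P.nu (g1L b2 b3 (-z)) (ee (inv D.Th1 (x + Real.pi + Real.pi / 3) - (x + Real.pi)))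
      + TSg T.tsc D.P.nu (g2L b2 b3 (-z)) (ee (inv D.Th2 (x + Real.pi + 2 * Real.pi / 3) - (x + Real.pi))))
    rfl nm.h2 nm.h3 nm.hx nm.hy hM ?_ ?_ ?_
  · rw [hT1, hT2, enu]
    show _ ≤ _
    have e : (pt R C x).g = (C.g : ℝ) / 100000 := rfl
    rw [e]
    refine le_trans ?_ (le_of_eq fs)
    linarith
  · unfold TSS
    rw [hcs, hmm, hll, enu, hw, hf, hp2, hp3, hm1, hm2]
    unfold Lf
    rw [norm_sq' z]
    rfl
  · unfold TSS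
    rw [hcs, hmm, hll, enu, hw, hf, hp2, hp3, hm1, hm2, wp, fp]
    unfold Lf
    rw [norm_neg, norm_sq' z, Complex.neg_re, Complex.neg_im, neg_sq, neg_sq]
    rfl

end Pool.Agent.Helper56.TS
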