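import Pool.Agent.Helper76.RC.EJ
import Pool.Agent.Helper41.SH.Inv

/-!
# Project RC, SHARP, tail symbol: the directions

A trigonometric polynomial `V` with `|ee (2 (inv Θ (x + j π / 3) - x)) - V x| ≤ δ` for all `x`: checked by the
composition `x = Θ y - j π / 3`. `hor`: the Horner scheme in a unit function.
-/

set_option autoImplicit false

open Helper49.LT hiding sg

namespace Pool.Agent.Helper56.TS

open Helper76.RC.TPoly Helper54.RC.Fast Helper76.RC.ExpF Helper76.RC.TrD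
open Helper41.SH (IA inv)

theorem bb {a c : Bool} : (bif a then c else false) = true ↔ a = true ∧ c = true := by cases a <;> simp

/-! ### values -/

/-- `∑ c_k X ^ k` -/
noncomputable def hv (X : ℂ) : List (ℤ × ℤ) → ℂ
  | [] => 0
  | p :: l => ((p.1 : ℂ) + Complex.I * (p.2 : ℂ)) + X * hv X l

/-- `∑ |re| + |im|` -/
def sl : List (ℤ × ℤ) → ℕ
  | [] => 0
  | p :: l => Nat.add (Nat.add p.1.natAbs p.2.natAbs) (sl l)

theorem hv_evr (X : ℂ) (l : List (ℤ × ℤ)) :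
    hv X l = evr X (l.map Prod.fst) + Complex.I * evr X (l.map Prod.snd) := by
  induction l with
  | nil => simp [hv, evr]
  | cons p l ih => simp only [hv, ih, List.map_cons, evr]; ring

theorem norm_hv {X : ℂ} (hX : ‖X‖ = 1) (l : List (ℤ × ℤ)) : ‖hv X l‖ ≤ sl l := by
  induction l with
  | nil => simp [hv, sl]
  | cons p l ih =>
    have e : ((sl (p :: l) : ℕ) : ℝ) = |(p.1 : ℝ)| + |(p.2 : ℝ)| + sl l := by
      show (((p.1.natAbs + p.2.natAbs) + sl l : ℕ) : ℝ) = _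
      push_cast
      rw [Nat.cast_natAbs, Nat.cast_natAbs]
      push_cast
      rfl
    rw [e]
    have h1 : ‖(p.1 : ℂ)‖ = |(p.1 : ℝ)| := by
      rw [← Complex.ofReal_intCast, Complex.norm_real, Real.norm_eq_abs]
    have h2 : ‖Complex.I * (p.2 : ℂ)‖ = |(p.2 : ℝ)| := by
      rw [norm_mul, Complex.norm_I, one_mul, ← Complex.ofReal_intCast, Complex.norm_real, Real.norm_eq_abs]
    show ‖((p.1 : ℂ) + Complex.I * (p.2 : ℂ)) + X * hv X l‖ ≤ _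
    calc ‖((p.1 : ℂ) + Complex.I * (p.2 : ℂ)) + X * hv X l‖ ≤ ‖(p.1 : ℂ) + Complex.I * (p.2 : ℂ)‖ + ‖X * hv X l‖ := norm_add_le _ _
      _ ≤ (‖(p.1 : ℂ)‖ + ‖Complex.I * (p.2 : ℂ)‖) + ‖X‖ * ‖hv X l‖ := by
        gcongr
        · exact norm_add_le _ _
        · rw [norm_mul]
      _ ≤ _ := by rw [h1, h2, hX, one_mul]; linarith

/-! ### the Horner scheme -/

/-- the constant `2 ^ q (p₁ + i p₂)`, window `W` -/
def cF (b W q : ℕ) (p : ℤ × ℤ) : FP :=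
  moF b W W (Nat.mul (Int.toNat p.1) (Nat.pow 2 q)) (Nat.mul (Int.toNat (Int.neg p.1)) (Nat.pow 2 q))
    (Nat.mul (Int.toNat p.2) (Nat.pow 2 q)) (Nat.mul (Int.toNat (Int.neg p.2)) (Nat.pow 2 q))

def okc (b q : ℕ) (p : ℤ × ℤ) : Bool :=
  bif Nat.ble (Nat.succ (Nat.mul p.1.natAbs (Nat.pow 2 q))) (Nat.pow 2 b) then
    Nat.ble (Nat.succ (Nat.mul p.2.natAbs (Nat.pow 2 q))) (Nat.pow 2 b)
  else false

theorem toNat_sub (a : ℤ) : ((a.toNat : ℕ) : ℂ) - (((-a).toNat : ℕ) : ℂ) = (a : ℂ) := by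
  have h : ((a.toNat : ℕ) : ℤ) - (((-a).toNat : ℕ) : ℤ) = a := Int.toNat_sub_toNat_neg a
  have h2 := congrArg (Int.cast : ℤ → ℂ) h
  push_cast at h2
  exact h2

theorem toNat_le (a : ℤ) : a.toNat ≤ a.natAbs ∧ (-a).toNat ≤ a.natAbs := by omega

theorem cF_sound (b W q : ℕ) (p : ℤ × ℤ) (h : okc b q p = true) : wf b (cF b W q p) = true ∧
    ∀ t, V b (cF b W q p) t = (2 ^ q : ℂ) * ((p.1 : ℂ) + Complex.I * (p.2 : ℂ)) := by
  unfold okc at h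
  rw [bb] at h
  have h1 : p.1.natAbs * 2 ^ q < 2 ^ b := Nat.le_of_ble_eq_true h.1
  have h2 : p.2.natAbs * 2 ^ q < 2 ^ b := Nat.le_of_ble_eq_true h.2
  obtain ⟨k1, k2⟩ := moF_sound b W W (p.1.toNat * 2 ^ q) ((-p.1).toNat * 2 ^ q) (p.2.toNat * 2 ^ q)
    ((-p.2).toNat * 2 ^ q) (by omega) (lt_of_le_of_lt (Nat.mul_le_mul_right _ (toNat_le _).1) h1)
    (lt_of_le_of_lt (Nat.mul_le_mul_right _ (toNat_le _).2) h1)
    (lt_of_le_of_lt (Nat.mul_le_mul_right _ (toNat_le _).1) h2)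
    (lt_of_le_of_lt (Nat.mul_le_mul_right _ (toNat_le _).2) h2)
  refine ⟨k1, fun t => ?_⟩
  have e : V b (cF b W q p) t = _ := k2 t
  rw [e, sub_self, zero_mul, ee_zero, mul_one]
  push_cast
  rw [← toNat_sub p.1, ← toNat_sub p.2]
  ring

/-- `2 ^ s` times `hv X l / 2 ^ h`, `s = h + q` -/
def hor (b s r W q : ℕ) (x : PF) : List (ℤ × ℤ) → PF
  | [] => ⟨cst b W 0, 0⟩
  | p :: l => ⟨addF b (cF b W q p) (stepG b s r W (Nat.mul (Nat.pow 2 q) (sl l)) (Nat.pow 2 s) (hor b s r W q x l) x).z,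
      (stepG b s r W (Nat.mul (Nat.pow 2 q) (sl l)) (Nat.pow 2 s) (hor b s r W q x l) x).er⟩

def okH (b s r W q : ℕ) (x : PF) : List (ℤ × ℤ) → Bool
  | [] => true
  | p :: l => bif okH b s r W q x l then
      bif okc b q p then
        bif okG b r W (hor b s r W q x l) x then
          oka b r (cF b W q p) (stepG b s r W (Nat.mul (Nat.pow 2 q) (sl l)) (Nat.pow 2 s) (hor b s r W q x l) x).z
        else false
      else false
    else false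

theorem hor_sound (b s r W q h : ℕ) (hr : r ≤ b + 1) (hs : s ≤ b) (e : s = h + q) (x : PF) (X : ℝ → ℂ)
    (hX : ∀ t, ‖X t‖ = 1) (hx : AP b s x X) (l : List (ℤ × ℤ)) (ok : okH b s r W q x l = true) :
    AP b s (hor b s r W q x l) (fun t => hv (X t) l / 2 ^ h) := by
  induction l with
  | nil =>
    obtain ⟨k1, k2⟩ := cst_sound b W 0 (by positivity)
    refine ⟨k1, fun t => ?_⟩
    show ‖V b (cst b W 0) t - _‖ ≤ _
    rw [k2]
    simp [hv, hor]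
  | cons p l ih =>
    unfold okH at ok
    rw [bb, bb, bb] at ok
    obtain ⟨o1, o2, o3, o4⟩ := ok
    have i1 := ih o1
    obtain ⟨c1, c2⟩ := cF_sound b W q p o2
    have hF : ∀ t, (2 ^ s : ℝ) * ‖hv (X t) l / 2 ^ h‖ ≤ ((Nat.mul (Nat.pow 2 q) (sl l) : ℕ) : ℝ) := by
      intro t
      have h1 := norm_hv (hX t) l
      have e2 : ((Nat.mul (Nat.pow 2 q) (sl l) : ℕ) : ℝ) = 2 ^ q * (sl l : ℝ) := by
        show ((2 ^ q * sl l : ℕ) : ℝ) = _
        push_cast; ring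
      rw [e2, norm_div, norm_pow, e, pow_add]
      have e3 : ‖(2 : ℂ)‖ = 2 := by simp
      rw [e3]
      have h2 : (2 : ℝ) ^ h ≠ 0 := by positivity
      have e4 : (2 : ℝ) ^ h * 2 ^ q * (‖hv (X t) l‖ / 2 ^ h) = 2 ^ q * ‖hv (X t) l‖ := by field_simp
      rw [e4]
      gcongr
    have hG : ∀ t, (2 ^ s : ℝ) * ‖X t‖ ≤ ((Nat.pow 2 s : ℕ) : ℝ) := by
      intro t
      rw [hX, mul_one]
      show (2 : ℝ) ^ s ≤ ((2 ^ s : ℕ) : ℝ)
      push_cast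
      exact le_refl _
    obtain ⟨w1, w2⟩ := stepG_sound b s r W _ _ hr hs (hor b s r W q x l) x (fun t => hv (X t) l / 2 ^ h) X hF hG i1 hx o3
    obtain ⟨d1, d2⟩ := addF_sound b r hr _ _ c1 w1 o4
    refine ⟨d1, fun t => ?_⟩
    have e1 : V b (hor b s r W q x (p :: l)).z t = _ := d2 t
    rw [e1, c2]
    have h3 := w2 t
    have h2 : (2 : ℂ) ^ h ≠ 0 := pow_ne_zero _ two_ne_zero
    have e5 : (2 : ℂ) ^ q * ((p.1 : ℂ) + Complex.I * (p.2 : ℂ))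
        + V b (stepG b s r W (Nat.mul (Nat.pow 2 q) (sl l)) (Nat.pow 2 s) (hor b s r W q x l) x).z t
        - 2 ^ s * (hv (X t) (p :: l) / 2 ^ h)
        = V b (stepG b s r W (Nat.mul (Nat.pow 2 q) (sl l)) (Nat.pow 2 s) (hor b s r W q x l) x).z t
          - 2 ^ s * (hv (X t) l / 2 ^ h * X t) := by
      rw [e, pow_add]
      show _ - 2 ^ h * 2 ^ q * ((((p.1 : ℂ) + Complex.I * (p.2 : ℂ)) + X t * hv (X t) l) / 2 ^ h) = _
      field_simp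
      ring
    rw [e5]
    exact h3

/-! ### the unit function `X y = ee (Θ y - j π / 3)` -/

/-- `2 ^ s ee (- j π / 3) ee y`; `t ≈ 2 ^ s √3 / 2`; `j = 1` if `j1` -/
def mo3 (b s t : ℕ) (j1 : Bool) : PF :=
  bif j1 then ⟨moF b 1 2 (Nat.pow 2 (Nat.pred s)) 0 0 t, 1⟩ else ⟨moF b 1 2 0 (Nat.pow 2 (Nat.pred s)) 0 t, 1⟩

def ok3 (b s t : ℕ) : Bool :=
  bif Nat.ble 1 s then
    bif Nat.ble (Nat.mul 4 (Nat.mul t t)) (Nat.mul 3 (Nat.pow 4 s)) then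
      bif Nat.ble (Nat.mul 3 (Nat.pow 4 s)) (Nat.mul 4 (Nat.mul (Nat.succ t) (Nat.succ t))) then
        Nat.ble (Nat.succ (Nat.succ (Nat.pow 2 s))) (Nat.pow 2 b)
      else false
    else false
  else false

/-- `j` -/
def jn (j1 : Bool) : ℕ := bif j1 then 1 else 2

theorem ok3_iff (b s t : ℕ) (h : ok3 b s t = true) : 1 ≤ s ∧ |(t : ℝ) - 2 ^ s * (Real.sqrt 3 / 2)| ≤ 1 ∧ 2 ^ s + 1 < 2 ^ b := by
  unfold ok3 at h
  rw [bb, bb, bb] at h
  obtain ⟨h1, h2, h3, h4⟩ := h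
  have h2 : 4 * (t * t) ≤ 3 * 4 ^ s := Nat.le_of_ble_eq_true h2
  have h3 : 3 * 4 ^ s ≤ 4 * ((t + 1) * (t + 1)) := Nat.le_of_ble_eq_true h3
  have h4 : 2 ^ s + 1 + 1 ≤ 2 ^ b := Nat.le_of_ble_eq_true h4
  refine ⟨Nat.le_of_ble_eq_true h1, ?_, h4⟩
  have r2 : 4 * ((t : ℝ) * t) ≤ 3 * 4 ^ s := by exact_mod_cast h2
  have r3 : 3 * (4 : ℝ) ^ s ≤ 4 * (((t : ℝ) + 1) * (t + 1)) := by exact_mod_cast h3
  have e4 : (4 : ℝ) ^ s = (2 ^ s) ^ 2 := by
    rw [← pow_mul, mul_comm, pow_mul]; norm_num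
  rw [e4] at r2 r3
  have s3 : Real.sqrt 3 ^ 2 = 3 := Real.sq_sqrt (by norm_num)
  have s0 : 0 ≤ Real.sqrt 3 := Real.sqrt_nonneg 3
  have p2 : (0 : ℝ) < 2 ^ s := by positivity
  have a0 : 0 ≤ (2 : ℝ) ^ s * (Real.sqrt 3 / 2) := by positivity
  have a2 : ((2 : ℝ) ^ s * (Real.sqrt 3 / 2)) ^ 2 = 3 * (2 ^ s) ^ 2 / 4 := by
    rw [mul_pow, div_pow, s3]; ring
  have t0 : (0 : ℝ) ≤ t := Nat.cast_nonneg t
  rw [abs_le]
  constructor
  · have : (2 : ℝ) ^ s * (Real.sqrt 3 / 2) ≤ t + 1 := by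
      refine abs_le_of_sq_le_sq' ?_ (by linarith) |>.2
      rw [a2]; nlinarith
    linarith
  · have : (t : ℝ) ≤ 2 ^ s * (Real.sqrt 3 / 2) := by
      refine abs_le_of_sq_le_sq' ?_ a0 |>.2
      rw [a2]; nlinarith
    linarith

theorem ee_m1 : ee (-(Real.pi / 3)) = ((1 / 2 : ℝ) : ℂ) - Complex.I * ((Real.sqrt 3 / 2 : ℝ) : ℂ) := by
  apply Complex.ext
  · rw [ee_re]; simp
  · rw [ee_im]; simp

theorem ee_m2 : ee (-(2 * Real.pi / 3)) = -((1 / 2 : ℝ) : ℂ) - Complex.I * ((Real.sqrt 3 / 2 : ℝ) : ℂ) := by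
  have h2 : 2 * Real.pi / 3 = Real.pi - Real.pi / 3 := by ring
  apply Complex.ext
  · rw [ee_re, Real.cos_neg, h2, Real.cos_pi_sub]; simp
  · rw [ee_im, Real.sin_neg, h2, Real.sin_pi_sub]; simp

theorem mo3_sound (b s t : ℕ) (j1 : Bool) (h : ok3 b s t = true) :
    AP b s (mo3 b s t j1) (fun y => ee (y - (jn j1 : ℝ) * Real.pi / 3)) := by
  obtain ⟨h1, h2, h3⟩ := ok3_iff b s t h
  have p1 : 2 ^ (s - 1) < 2 ^ b := lt_of_le_of_lt (Nat.pow_le_pow_right (by norm_num) (by omega)) (by omega : 2 ^ s < 2 ^ b)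
  have tb : t < 2 ^ b := by
    have r1 := (abs_le.1 h2).2
    have s3 : Real.sqrt 3 ≤ 2 := by
      rw [Real.sqrt_le_left (by norm_num)]; norm_num
    have p2 : (0 : ℝ) < 2 ^ s := by positivity
    have r2 : (t : ℝ) ≤ 2 ^ s + 1 := by nlinarith
    have r3 : t ≤ 2 ^ s + 1 := by exact_mod_cast r2
    omega
  have z0 : 0 < 2 ^ b := by positivity
  have e2s : ((2 ^ (s - 1) : ℕ) : ℂ) * 2 = 2 ^ s := by
    push_cast
    rw [← pow_succ, Nat.sub_add_cancel h1]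
  have key : ∀ y : ℝ, ∀ A : ℂ, ‖A‖ = 1 → ‖(2 ^ s * A * ((((t : ℝ) / 2 ^ s - Real.sqrt 3 / 2 : ℝ) : ℂ)))‖ ≤ 1 := by
    intro y A hA
    rw [norm_mul, norm_mul, hA, mul_one, norm_pow, Complex.norm_real, Real.norm_eq_abs]
    have e3 : ‖(2 : ℂ)‖ = 2 := by simp
    rw [e3]
    have p2 : (0 : ℝ) < 2 ^ s := by positivity
    calc (2 : ℝ) ^ s * |(t : ℝ) / 2 ^ s - Real.sqrt 3 / 2| = |(2 : ℝ) ^ s| * |(t : ℝ) / 2 ^ s - Real.sqrt 3 / 2| := by
          rw [abs_of_pos p2]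
      _ = |(t : ℝ) - 2 ^ s * (Real.sqrt 3 / 2)| := by
          rw [← abs_mul]
          congr 1
          field_simp
      _ ≤ 1 := h2
  have hc2 : (2 : ℂ) ^ s ≠ 0 := pow_ne_zero _ two_ne_zero
  cases j1
  · obtain ⟨k1, k2⟩ := moF_sound b 1 2 0 (2 ^ (s - 1)) 0 t (by norm_num) z0 p1 z0 tb
    refine ⟨k1, fun y => ?_⟩
    show ‖V b (moF b 1 2 0 (2 ^ (s - 1)) 0 t) y - 2 ^ s * ee (y - ((jn false : ℕ) : ℝ) * Real.pi / 3)‖ ≤ ((1 : ℕ) : ℝ)
    rw [k2]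
    have e1 : ee (y - ((jn false : ℕ) : ℝ) * Real.pi / 3) = ee (-(2 * Real.pi / 3)) * ee y := by
      rw [← ee_add]; congr 1
      show y - ((2 : ℕ) : ℝ) * Real.pi / 3 = _
      push_cast; ring
    rw [e1, ee_m2]
    have e5 : ee ((((2 : ℕ) : ℝ) - ((1 : ℕ) : ℝ)) * y) = ee y := by congr 1; push_cast; ring
    rw [e5]
    have e6 : (((0 : ℕ) : ℂ) - ((2 ^ (s - 1) : ℕ) : ℂ) + Complex.I * (((0 : ℕ) : ℂ) - (t : ℂ))) * ee y
        - 2 ^ s * ((-((1 / 2 : ℝ) : ℂ) - Complex.I * ((Real.sqrt 3 / 2 : ℝ) : ℂ)) * ee y)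
        = 2 ^ s * (-Complex.I * ee y) * ((((t : ℝ) / 2 ^ s - Real.sqrt 3 / 2 : ℝ) : ℂ)) := by
      rw [← e2s]
      push_cast
      have : (2 : ℂ) ^ (s - 1) ≠ 0 := pow_ne_zero _ two_ne_zero
      have e7 : (2 : ℂ) ^ s = 2 ^ (s - 1) * 2 := by rw [← pow_succ, Nat.sub_add_cancel h1]
      rw [e7]
      field_simp
      ring
    rw [e6]
    have := key y (-Complex.I * ee y) (by rw [norm_mul, norm_neg, Complex.norm_I, norm_ee]; norm_num)
    exact_mod_cast this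
  · obtain ⟨k1, k2⟩ := moF_sound b 1 2 (2 ^ (s - 1)) 0 0 t (by norm_num) p1 z0 z0 tb
    refine ⟨k1, fun y => ?_⟩
    show ‖V b (moF b 1 2 (2 ^ (s - 1)) 0 0 t) y - 2 ^ s * ee (y - ((jn true : ℕ) : ℝ) * Real.pi / 3)‖ ≤ ((1 : ℕ) : ℝ)
    rw [k2]
    have e1 : ee (y - ((jn true : ℕ) : ℝ) * Real.pi / 3) = ee (-(Real.pi / 3)) * ee y := by
      rw [← ee_add]; congr 1
      show y - ((1 : ℕ) : ℝ) * Real.pi / 3 = _
      push_cast; ring
    rw [e1, ee_m1]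
    have e5 : ee ((((2 : ℕ) : ℝ) - ((1 : ℕ) : ℝ)) * y) = ee y := by congr 1; push_cast; ring
    rw [e5]
    have e6 : (((2 ^ (s - 1) : ℕ) : ℂ) - ((0 : ℕ) : ℂ) + Complex.I * (((0 : ℕ) : ℂ) - (t : ℂ))) * ee y
        - 2 ^ s * ((((1 / 2 : ℝ) : ℂ) - Complex.I * ((Real.sqrt 3 / 2 : ℝ) : ℂ)) * ee y)
        = 2 ^ s * (-Complex.I * ee y) * ((((t : ℝ) / 2 ^ s - Real.sqrt 3 / 2 : ℝ) : ℂ)) := by
      push_cast
      have : (2 : ℂ) ^ (s - 1) ≠ 0 := pow_ne_zero _ two_ne_zero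
      have e7 : (2 : ℂ) ^ s = 2 ^ (s - 1) * 2 := by rw [← pow_succ, Nat.sub_add_cancel h1]
      rw [e7]
      field_simp
      ring
    rw [e6]
    have := key y (-Complex.I * ee y) (by rw [norm_mul, norm_neg, Complex.norm_I, norm_ee]; norm_num)
    exact_mod_cast this

/-- parameters: `b` digits, `r` bound of the norms, `s` scale, `sE` scale of the divisions, `M` window of the exponential,
`Rr, n, τ` its error data, `W0` window of `X`, `W` window of the Horner scheme, `t ≈ 2 ^ s √3 / 2`, `q`: `s = h + q` -/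
structure VP where
  b : ℕ
  r : ℕ
  s : ℕ
  sE : ℕ
  M : ℕ
  Rr : ℕ
  n : ℕ
  τ : ℕ
  W0 : ℕ
  W : ℕ
  t : ℕ
  h : ℕ

/-- the approximation of `X` -/
def xP (p : VP) (j1 : Bool) (D : List (ℤ × ℤ)) : PF :=
  stepG p.b p.s p.r p.W0 (Nat.pow 2 p.s) (Nat.pow 2 p.s) (mo3 p.b p.s p.t j1) (ejP p.b p.s p.sE p.M 1000 p.Rr p.n p.τ D)

def okxP (p : VP) (j1 : Bool) (D : List (ℤ × ℤ)) : Bool :=
  bif Nat.ble p.r (Nat.succ p.b) then
    bif Nat.ble p.s p.b then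
      bif ok3 p.b p.s p.t then
        bif okX p.b p.r p.sE p.M (Nat.pow 2 p.s) 1000 p.Rr p.n p.τ D then
          okG p.b p.r p.W0 (mo3 p.b p.s p.t j1) (ejP p.b p.s p.sE p.M 1000 p.Rr p.n p.τ D)
        else false
      else false
    else false
  else false

/-- `X y` -/
noncomputable def XX (j1 : Bool) (D : List (ℤ × ℤ)) (y : ℝ) : ℂ := ee (Th 1000 D y - (jn j1 : ℝ) * Real.pi / 3)

theorem norm_XX (j1 : Bool) (D : List (ℤ × ℤ)) (y : ℝ) : ‖XX j1 D y‖ = 1 := norm_ee _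

theorem xP_sound (p : VP) (j1 : Bool) (D : List (ℤ × ℤ)) (h : okxP p j1 D = true) :
    p.r ≤ p.b + 1 ∧ p.s ≤ p.b ∧ AP p.b p.s (xP p j1 D) (XX j1 D) := by
  unfold okxP at h
  rw [bb, bb, bb, bb] at h
  obtain ⟨h1, h2, h3, h4, h5⟩ := h
  have hr : p.r ≤ p.b + 1 := Nat.le_of_ble_eq_true h1
  have hs : p.s ≤ p.b := Nat.le_of_ble_eq_true h2
  refine ⟨hr, hs, ?_⟩
  have a1 := mo3_sound p.b p.s p.t j1 h3
  have a2 := ejP_sound p.b p.r p.s p.sE p.M 1000 p.Rr p.n p.τ D hr h4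
  have hu : ∀ x : ℝ, (2 ^ p.s : ℝ) * ‖ee x‖ ≤ ((Nat.pow 2 p.s : ℕ) : ℝ) := by
    intro x
    rw [norm_ee, mul_one]
    show (2 : ℝ) ^ p.s ≤ ((2 ^ p.s : ℕ) : ℝ)
    push_cast
    exact le_refl _
  have a3 := stepG_sound p.b p.s p.r p.W0 _ _ hr hs _ _ _ _ (fun t => hu _) (fun t => hu _) a1 a2 h5
  have e : (fun t => ee (t - (jn j1 : ℝ) * Real.pi / 3) * ee (-(Dt 1000 D t))) = XX j1 D := by
    funext t
    unfold XX Th
    rw [← ee_add]
    congr 1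
    ring
  rw [← e]
  exact a3

/-! ### the composition -/

/-- zeros and the last coefficient `2 ^ h`: the power `X ^ n` -/
def pw (h : ℕ) : ℕ → List (ℤ × ℤ)
  | 0 => [(Int.ofNat (Nat.pow 2 h), 0)]
  | n + 1 => (0, 0) :: pw h n

theorem hv_pw (X : ℂ) (h n : ℕ) : hv X (pw h n) = 2 ^ h * X ^ n := by
  induction n with
  | zero =>
    have e : ((Int.ofNat (Nat.pow 2 h) : ℤ) : ℂ) = 2 ^ h := by
      show (((2 ^ h : ℕ) : ℤ) : ℂ) = _
      push_cast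
      rfl
    simp [pw, hv]
  | succ n ih =>
    simp only [pw, hv, ih]
    push_cast
    ring

/-- the difference `X ^ N V - ee (2 y) X ^ (N - 2)` -/
def dfV (p : VP) (j1 : Bool) (D : List (ℤ × ℤ)) (N : ℕ) (l : List (ℤ × ℤ)) : FP :=
  subF p.b (padF p.b 2 (hor p.b p.s p.r p.W (Nat.sub p.s p.h) (xP p j1 D) l).z)
    (mulF p.b (moF p.b 2 4 1 0 0 0) (hor p.b p.s p.r p.W (Nat.sub p.s p.h) (xP p j1 D) (pw p.h (Nat.sub N 2))).z)

/-- the check of `2 ^ s |V - v ^ 2| ≤ dl` -/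
def okV (p : VP) (j1 : Bool) (D : List (ℤ × ℤ)) (N dl : ℕ) (l : List (ℤ × ℤ)) : Bool :=
  bif okxP p j1 D then
    bif Nat.ble 2 N then
      bif Nat.ble p.h p.s then
        bif Nat.ble 1 p.b then
          bif okH p.b p.s p.r p.W (Nat.sub p.s p.h) (xP p j1 D) l then
            bif okH p.b p.s p.r p.W (Nat.sub p.s p.h) (xP p j1 D) (pw p.h (Nat.sub N 2)) then
              bif okm p.b p.r (moF p.b 2 4 1 0 0 0)
                  (hor p.b p.s p.r p.W (Nat.sub p.s p.h) (xP p j1 D) (pw p.h (Nat.sub N 2))).z then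
                bif oka p.b p.r (padF p.b 2 (hor p.b p.s p.r p.W (Nat.sub p.s p.h) (xP p j1 D) l).z)
                    (mulF p.b (moF p.b 2 4 1 0 0 0)
                      (hor p.b p.s p.r p.W (Nat.sub p.s p.h) (xP p j1 D) (pw p.h (Nat.sub N 2))).z) then
                  Nat.ble (Nat.add (nrF p.b p.r (dfV p j1 D N l))
                    (Nat.add (hor p.b p.s p.r p.W (Nat.sub p.s p.h) (xP p j1 D) l).er
                      (hor p.b p.s p.r p.W (Nat.sub p.s p.h) (xP p j1 D) (pw p.h (Nat.sub N 2))).er)) dl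
                else false
              else false
            else false
          else false
        else false
      else false
    else false
  else false

/-- the value of the polynomial with the coefficients `l` (frequencies `-N .. N`) over `2 ^ h` -/
noncomputable def VV (h N : ℕ) (l : List (ℤ × ℤ)) (x : ℝ) : ℂ := T N ⟨l.map Prod.fst, l.map Prod.snd⟩ x / 2 ^ h

theorem okV_sound (p : VP) (j1 : Bool) (D : List (ℤ × ℤ)) (N dl : ℕ) (l : List (ℤ × ℤ))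
    (h : okV p j1 D N dl l = true) (ia : IA (Th 1000 D) (Th' 1000 D)) (x : ℝ) :
    ‖VV p.h N l x - ee (inv (Th 1000 D) (x + (jn j1 : ℝ) * Real.pi / 3) - x) ^ 2‖ ≤ (dl : ℝ) / 2 ^ p.s := by
  unfold okV at h
  simp only [bb] at h
  obtain ⟨h1, h2, h3, h4, h5, h6, h7, h8, h9⟩ := h
  obtain ⟨hr, hs, hx⟩ := xP_sound p j1 D h1
  have h2 : 2 ≤ N := Nat.le_of_ble_eq_true h2
  have h3 : p.h ≤ p.s := Nat.le_of_ble_eq_true h3
  have h4 : 1 ≤ p.b := Nat.le_of_ble_eq_true h4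
  have es : p.s = p.h + (p.s - p.h) := by omega
  obtain ⟨u1, u2⟩ := hor_sound p.b p.s p.r p.W (p.s - p.h) p.h hr hs es (xP p j1 D) (XX j1 D) (norm_XX j1 D) hx l h5
  obtain ⟨w1, w2⟩ := hor_sound p.b p.s p.r p.W (p.s - p.h) p.h hr hs es (xP p j1 D) (XX j1 D) (norm_XX j1 D) hx
    (pw p.h (N - 2)) h6
  obtain ⟨k1, k2⟩ := padF_sound p.b 2 _ u1
  have hb : 1 < 2 ^ p.b := Nat.one_lt_pow (by omega) (by norm_num)
  obtain ⟨m1, m2⟩ := moF_sound p.b 2 4 1 0 0 0 (by norm_num) hb (by positivity) (by positivity) (by positivity)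
  obtain ⟨n1, n2⟩ := mulF_sound p.b p.r hr _ _ m1 w1 h7
  obtain ⟨s1, s2⟩ := subF_sound p.b p.r hr _ _ k1 n1 h8
  -- the point `y`
  set y := inv (Th 1000 D) (x + (jn j1 : ℝ) * Real.pi / 3) with hy
  have hTy : Th 1000 D y = x + (jn j1 : ℝ) * Real.pi / 3 := ia.right _
  have hX : XX j1 D y = ee x := by
    unfold XX
    rw [hTy]
    congr 1
    ring
  have g1 := u2 y
  have g2 := w2 y
  have g3 := norm_V_le p.b p.r hr (dfV p j1 D N l) y
  have g4 : V p.b (dfV p j1 D N l) y = _ := s2 y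
  rw [k2, n2, m2] at g4
  have e6 : (((1 : ℕ) : ℂ) - ((0 : ℕ) : ℂ) + Complex.I * (((0 : ℕ) : ℂ) - ((0 : ℕ) : ℂ))) * ee ((((4 : ℕ) : ℝ) - ((2 : ℕ) : ℝ)) * y) = ee (2 * y) := by
    have : (((4 : ℕ) : ℝ) - ((2 : ℕ) : ℝ)) * y = 2 * y := by push_cast; ring
    rw [this]
    push_cast
    ring
  rw [e6] at g4
  have h9 : nrF p.b p.r (dfV p j1 D N l) + ((hor p.b p.s p.r p.W (p.s - p.h) (xP p j1 D) l).er
    + (hor p.b p.s p.r p.W (p.s - p.h) (xP p j1 D) (pw p.h (N - 2))).er) ≤ dl := Nat.le_of_ble_eq_true h9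
  have h9' : ((nrF p.b p.r (dfV p j1 D N l) : ℕ) : ℝ) + (((hor p.b p.s p.r p.W (p.s - p.h) (xP p j1 D) l).er : ℕ) : ℝ)
    + (((hor p.b p.s p.r p.W (p.s - p.h) (xP p j1 D) (pw p.h (N - 2))).er : ℕ) : ℝ) ≤ dl := by exact_mod_cast (by omega)
  set A := V p.b (hor p.b p.s p.r p.W (p.s - p.h) (xP p j1 D) l).z y with hA
  set B := V p.b (hor p.b p.s p.r p.W (p.s - p.h) (xP p j1 D) (pw p.h (N - 2))).z y with hB
  have hq : ‖A - ee (2 * y) * B‖ ≤ nrF p.b p.r (dfV p j1 D N l) := by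
    have : A - ee (2 * y) * B = V p.b (dfV p j1 D N l) y := g4.symm
    rw [this]
    exact g3
  simp only [hX] at g1 g2
  rw [hv_pw] at g2
  have p2 : (2 : ℂ) ^ p.h ≠ 0 := pow_ne_zero _ two_ne_zero
  have e7 : (2 : ℂ) ^ p.h * ee x ^ (N - 2) / 2 ^ p.h = ee x ^ (N - 2) := by field_simp
  rw [e7] at g2
  -- the main identity
  have c1 : ee (-((N : ℝ) * x)) * ee x ^ N = 1 := ee_neg_mul_pow N x
  have eV : ee x ^ N * VV p.h N l x = hv (ee x) l / 2 ^ p.h := by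
    unfold VV T TP.ev
    simp only
    rw [hv_evr]
    linear_combination ((evr (ee x) (l.map Prod.fst) + Complex.I * evr (ee x) (l.map Prod.snd)) / 2 ^ p.h) * c1
  have eW : ee x ^ N * ee (y - x) ^ 2 = ee (2 * y) * ee x ^ (N - 2) := by
    have e8 : ee x ^ N = ee x ^ (N - 2) * ee x ^ 2 := by rw [← pow_add]; congr 1; omega
    have e9 : ee (2 * y) = ee x ^ 2 * ee (y - x) ^ 2 := by
      rw [← mul_pow, ← ee_add, ← ee_nat]
      congr 1
      push_cast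
      ring
    rw [e8, e9]
    ring
  have nN : ‖ee x ^ N‖ = 1 := by rw [norm_pow, norm_ee, one_pow]
  have hfin : ‖(2 : ℂ) ^ p.s * (VV p.h N l x - ee (y - x) ^ 2)‖ ≤ dl := by
    have e10 : ‖(2 : ℂ) ^ p.s * (VV p.h N l x - ee (y - x) ^ 2)‖
        = ‖(2 : ℂ) ^ p.s * (hv (ee x) l / 2 ^ p.h) - 2 ^ p.s * (ee (2 * y) * ee x ^ (N - 2))‖ := by
      have : (2 : ℂ) ^ p.s * (hv (ee x) l / 2 ^ p.h) - 2 ^ p.s * (ee (2 * y) * ee x ^ (N - 2))
          = ee x ^ N * ((2 : ℂ) ^ p.s * (VV p.h N l x - ee (y - x) ^ 2)) := by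
        rw [← eV, ← eW]; ring
      rw [this, norm_mul (ee x ^ N), nN, one_mul]
    rw [e10]
    have e11 : (2 : ℂ) ^ p.s * (hv (ee x) l / 2 ^ p.h) - 2 ^ p.s * (ee (2 * y) * ee x ^ (N - 2))
        = (A - ee (2 * y) * B) - (A - 2 ^ p.s * (hv (ee x) l / 2 ^ p.h)) + ee (2 * y) * (B - 2 ^ p.s * ee x ^ (N - 2)) := by
      ring
    rw [e11]
    calc _ ≤ ‖A - ee (2 * y) * B‖ + ‖A - 2 ^ p.s * (hv (ee x) l / 2 ^ p.h)‖ + ‖ee (2 * y) * (B - 2 ^ p.s * ee x ^ (N - 2))‖ := by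
          refine (norm_add_le _ _).trans ?_
          gcongr
          exact norm_sub_le _ _
      _ ≤ _ := by
          rw [norm_mul, norm_ee, one_mul]
          linarith
  rw [norm_mul, norm_pow] at hfin
  have e3 : ‖(2 : ℂ)‖ = 2 := by simp
  rw [e3] at hfin
  rw [le_div_iff₀ (by positivity)]
  linarith

end Pool.Agent.Helper56.TS
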