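import Pool.Agent.Helper56.SH.TSA
import Pool.Agent.Helper56.SH.TSE
import Pool.Agent.Helper56.SH.TSV

/-!
# Project RC, SHARP, tail symbol: the matrix certificate

`TI`: the numbers of the tail estimate (integers over `10^5`), `TC`: the certificate: the directions `V_j`, rational bounds
and an upper triangular matrix `R` of real trigonometric polynomials with `M - T - σ ≈ Rᵀ R`.
-/

set_option autoImplicit false

open Helper49.LT hiding sg

namespace Pool.Agent.Helper56.TS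

open Helper76.RC.TPoly Helper54.RC.Fast Helper76.RC.ExpF Helper76.RC.TrD
open Helper49.Cell
open Pool.Agent.Helper75.SH (TSc)

/-- the numbers of the tail estimate, over `10^5` (`K, L, l0` natural numbers) -/
structure TI where
  K : ℕ
  L : ℕ
  l0 : ℕ
  be : ℕ
  ga : ℕ
  th : ℕ
  kap : ℕ
  kap4 : ℕ
  dlow : ℕ
  tz : ℕ
  t2 : ℕ
  t3 : ℕ

noncomputable def TI.tsc (T : TI) : TSc where
  K := T.K
  L := T.L
  l0 := T.l0
  be := T.be / 100000
  ga := T.ga / 100000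
  th := T.th / 100000
  kap := T.kap / 100000
  kap4 := T.kap4 / 100000
  dlow := T.dlow / 100000
  tz := T.tz / 100000
  t2 := T.t2 / 100000
  t3 := T.t3 / 100000

/-- the certificate -/
structure TC where
  p : VP
  N : ℕ
  l1 : List (ℤ × ℤ)
  l2 : List (ℤ × ℤ)
  dl : ℕ
  b : ℕ
  r : ℕ
  hp : ℕ
  t : ℕ
  rho : ℕ
  g : ℕ
  ag : ℕ
  n2 : ℕ
  n3 : ℕ
  nx : ℕ
  ny : ℕ
  sg : ℕ
  e : ℕ
  r00 : ℤ × List (ℤ × ℤ)
  r01 : ℤ × List (ℤ × ℤ)
  r02 : ℤ × List (ℤ × ℤ)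
  r03 : ℤ × List (ℤ × ℤ)
  r11 : ℤ × List (ℤ × ℤ)
  r12 : ℤ × List (ℤ × ℤ)
  r13 : ℤ × List (ℤ × ℤ)
  r22 : ℤ × List (ℤ × ℤ)
  r23 : ℤ × List (ℤ × ℤ)
  r33 : ℤ × List (ℤ × ℤ)

/-! ### the atoms -/

/-- alternating signs -/
def altS : Bool → List ℤ → List ℤ
  | _, [] => []
  | s, a :: l => (bif s then Int.neg a else a) :: altS (bif s then false else true) l

theorem evr_altS (X : ℂ) (s : Bool) (l : List ℤ) :
    evr X (altS s l) = (if s then -1 else 1) * evr (-X) l := by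
  induction l generalizing s with
  | nil => simp [altS, evr]
  | cons a l ih =>
    cases s
    · simp only [altS, cond_false, evr, ih]
      simp
    · have : ((Int.neg a : ℤ) : ℂ) = -(a : ℂ) := by
        have e : (Int.neg a : ℤ) = -a := rfl
        rw [e]; push_cast; rfl
      simp only [altS, cond_true, evr, ih, this]
      simp
      ring

theorem length_altS (s : Bool) (l : List ℤ) : (altS s l).length = l.length := by
  induction l generalizing s with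
  | nil => rfl
  | cons a l ih => simp [altS, ih]

theorem ee_pi_add (x : ℝ) : ee (x + Real.pi) = -ee x := by
  have : ee Real.pi = -1 := by
    apply Complex.ext
    · rw [ee_re]; simp
    · rw [ee_im]; simp
  rw [ee_add, this]
  ring

theorem VV_pi (h N : ℕ) (hN : N % 2 = 0) (l : List (ℤ × ℤ)) (x : ℝ) : VV h N l (x + Real.pi) =
    T N ⟨altS false (l.map Prod.fst), altS false (l.map Prod.snd)⟩ x / 2 ^ h := by
  unfold VV T TP.ev
  have e1 : ee (-((N : ℝ) * (x + Real.pi))) = ee (-((N : ℝ) * x)) := by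
    obtain ⟨k, hk⟩ : ∃ k, N = 2 * k := ⟨N / 2, by omega⟩
    subst hk
    have e2 : ee (-(((2 * k : ℕ) : ℝ) * (x + Real.pi))) = ee (-(((2 * k : ℕ) : ℝ) * x)) * ee (-(((2 * k : ℕ) : ℝ) * Real.pi)) := by
      rw [← ee_add]; congr 1; ring
    have e3 : ee (((2 * k : ℕ) : ℝ) * Real.pi) = 1 := by
      rw [ee_nat, pow_mul]
      have : ee Real.pi = -1 := by
        apply Complex.ext
        · rw [ee_re]; simp
        · rw [ee_im]; simp
      rw [this]
      norm_num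
    have e4 : ee (-(((2 * k : ℕ) : ℝ) * Real.pi)) = 1 := by
      have := ee_neg (((2 * k : ℕ) : ℝ) * Real.pi)
      rw [this, e3, map_one]
    rw [e2, e4, mul_one]
  simp only [evr_altS, Bool.false_eq_true, if_false, one_mul, e1, ee_pi_add]

def AV (b N : ℕ) (l : List (ℤ × ℤ)) : Ex := .atm (ofL b N (l.map Prod.fst) (l.map Prod.snd))
def BV (b N : ℕ) (l : List (ℤ × ℤ)) : Ex := .atm (ofL b N (altS false (l.map Prod.fst)) (altS false (l.map Prod.snd)))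

def okL (b N : ℕ) (l : List (ℤ × ℤ)) : Bool :=
  bif Nat.beq l.length (len N) then
    bif Nat.beq (Nat.mod N 2) 0 then
      bif rng b (l.map Prod.fst) then
        bif rng b (l.map Prod.snd) then
          bif rng b (altS false (l.map Prod.fst)) then rng b (altS false (l.map Prod.snd)) else false
        else false
      else false
    else false
  else false

theorem okL_sound (b N h : ℕ) (l : List (ℤ × ℤ)) (ok : okL b N l = true) (x : ℝ) :
    vl b (AV b N l) x = 2 ^ h * VV h N l x ∧ vl b (BV b N l) x = 2 ^ h * VV h N l (x + Real.pi) := by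
  unfold okL at ok
  simp only [bb] at ok
  obtain ⟨h1, h2, h3, h4, h5, h6⟩ := ok
  have h1 : l.length = len N := Nat.eq_of_beq_eq_true h1
  have h2 : N % 2 = 0 := Nat.eq_of_beq_eq_true h2
  have p2 : (2 : ℂ) ^ h ≠ 0 := pow_ne_zero _ two_ne_zero
  obtain ⟨-, k2⟩ := ofL_sound b N (l.map Prod.fst) (l.map Prod.snd) (by simpa using h1) (by simpa using h1) h3 h4
  obtain ⟨-, k4⟩ := ofL_sound b N (altS false (l.map Prod.fst)) (altS false (l.map Prod.snd))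
    (by rw [length_altS]; simpa using h1) (by rw [length_altS]; simpa using h1) h5 h6
  constructor
  · show V b (ofL b N (l.map Prod.fst) (l.map Prod.snd)) x = _
    rw [k2]
    unfold VV
    field_simp
  · show V b (ofL b N (altS false (l.map Prod.fst)) (altS false (l.map Prod.snd))) x = _
    rw [k4, VV_pi h N h2]
    field_simp

/-- entries of `R` -/
def rF (b : ℕ) (e : ℤ × List (ℤ × ℤ)) : FP := Rec.adC b (zD b e.2) e.1
def okR (b r : ℕ) (e : ℤ × List (ℤ × ℤ)) : Bool := bif okD b e.2 then Rec.okC b r (zD b e.2) e.1 else false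
noncomputable def rv (e : ℤ × List (ℤ × ℤ)) (x : ℝ) : ℝ := 2 * ((1 : ℕ) : ℝ) * Dt 1 e.2 x + e.1

theorem rF_sound (b r : ℕ) (hr : r ≤ b + 1) (e : ℤ × List (ℤ × ℤ)) (h : okR b r e = true) (x : ℝ) :
    vl b (.atm (rF b e)) x = ((rv e x : ℝ) : ℂ) := by
  unfold okR at h
  rw [bb] at h
  obtain ⟨z1, z2⟩ := zD_sound b 1 (by norm_num) e.2 h.1
  obtain ⟨-, a2⟩ := Rec.adC_sound hr _ z1 _ h.2
  show V b (Rec.adC b (zD b e.2) e.1) x = _
  rw [a2, z2]
  unfold rv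
  push_cast
  ring

/-! ### the eight combinations -/

section

variable (b N : ℕ) (l1 l2 : List (ℤ × ℤ))

def xP1 : Ex := .ad (.ad (AV b N l1) (BV b N l1)) (.ad (AV b N l2) (BV b N l2))
def xP2 : Ex := .sb (.ad (AV b N l1) (BV b N l1)) (.ad (AV b N l2) (BV b N l2))
def xP3 : Ex := .ad (.sb (AV b N l1) (BV b N l1)) (.sb (AV b N l2) (BV b N l2))
def xP4 : Ex := .sb (.sb (AV b N l1) (BV b N l1)) (.sb (AV b N l2) (BV b N l2))

end

/-- values of `V_j` at `x` and `x + π` -/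
structure Vs where
  p1 : ℝ
  q1 : ℝ
  p1' : ℝ
  q1' : ℝ
  p2 : ℝ
  q2 : ℝ
  p2' : ℝ
  q2' : ℝ

noncomputable def vs (h N : ℕ) (l1 l2 : List (ℤ × ℤ)) (x : ℝ) : Vs where
  p1 := (VV h N l1 x).re
  q1 := (VV h N l1 x).im
  p1' := (VV h N l1 (x + Real.pi)).re
  q1' := (VV h N l1 (x + Real.pi)).im
  p2 := (VV h N l2 x).re
  q2 := (VV h N l2 x).im
  p2' := (VV h N l2 (x + Real.pi)).re
  q2' := (VV h N l2 (x + Real.pi)).im

theorem re2 (h : ℕ) (A : ℂ) : ((2 : ℂ) ^ h * A).re = 2 ^ h * A.re ∧ ((2 : ℂ) ^ h * A).im = 2 ^ h * A.im := by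
  have : (2 : ℂ) ^ h = (((2 : ℝ) ^ h : ℝ) : ℂ) := by push_cast; rfl
  rw [this, Complex.re_ofReal_mul, Complex.im_ofReal_mul]
  exact ⟨rfl, rfl⟩

theorem xP_val {b N h : ℕ} {l1 l2 : List (ℤ × ℤ)} (o1 : okL b N l1 = true) (o2 : okL b N l2 = true) (x : ℝ) :
    vl b (rP (xP1 b N l1 l2)) x = ((2 * 2 ^ h * ((vs h N l1 l2 x).p1 + (vs h N l1 l2 x).p1' + ((vs h N l1 l2 x).p2 + (vs h N l1 l2 x).p2')) : ℝ) : ℂ) ∧
    vl b (iP (xP1 b N l1 l2)) x = ((2 * 2 ^ h * ((vs h N l1 l2 x).q1 + (vs h N l1 l2 x).q1' + ((vs h N l1 l2 x).q2 + (vs h N l1 l2 x).q2')) : ℝ) : ℂ) ∧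
    vl b (rP (xP2 b N l1 l2)) x = ((2 * 2 ^ h * ((vs h N l1 l2 x).p1 + (vs h N l1 l2 x).p1' - ((vs h N l1 l2 x).p2 + (vs h N l1 l2 x).p2')) : ℝ) : ℂ) ∧
    vl b (iP (xP2 b N l1 l2)) x = ((2 * 2 ^ h * ((vs h N l1 l2 x).q1 + (vs h N l1 l2 x).q1' - ((vs h N l1 l2 x).q2 + (vs h N l1 l2 x).q2')) : ℝ) : ℂ) ∧
    vl b (rP (xP3 b N l1 l2)) x = ((2 * 2 ^ h * ((vs h N l1 l2 x).p1 - (vs h N l1 l2 x).p1' + ((vs h N l1 l2 x).p2 - (vs h N l1 l2 x).p2')) : ℝ) : ℂ) ∧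
    vl b (iP (xP3 b N l1 l2)) x = ((2 * 2 ^ h * ((vs h N l1 l2 x).q1 - (vs h N l1 l2 x).q1' + ((vs h N l1 l2 x).q2 - (vs h N l1 l2 x).q2')) : ℝ) : ℂ) ∧
    vl b (rP (xP4 b N l1 l2)) x = ((2 * 2 ^ h * ((vs h N l1 l2 x).p1 - (vs h N l1 l2 x).p1' - ((vs h N l1 l2 x).p2 - (vs h N l1 l2 x).p2')) : ℝ) : ℂ) ∧
    vl b (iP (xP4 b N l1 l2)) x = ((2 * 2 ^ h * ((vs h N l1 l2 x).q1 - (vs h N l1 l2 x).q1' - ((vs h N l1 l2 x).q2 - (vs h N l1 l2 x).q2')) : ℝ) : ℂ) := by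
  obtain ⟨a1, b1⟩ := okL_sound b N h l1 o1 x
  obtain ⟨a2, b2⟩ := okL_sound b N h l2 o2 x
  have r1 := re2 h (VV h N l1 x)
  have r2 := re2 h (VV h N l1 (x + Real.pi))
  have r3 := re2 h (VV h N l2 x)
  have r4 := re2 h (VV h N l2 (x + Real.pi))
  refine ⟨?_, ?_, ?_, ?_, ?_, ?_, ?_, ?_⟩
  all_goals
    first | rw [vl_rP] | rw [vl_iP]
    simp only [xP1, xP2, xP3, xP4, vl, a1, b1, a2, b2, vs, Complex.add_re, Complex.sub_re, Complex.add_im, Complex.sub_im,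
      r1.1, r1.2, r2.1, r2.2, r3.1, r3.2, r4.1, r4.2]
    congr 1
    ring

end Pool.Agent.Helper56.TS
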