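import Pool.Agent.Helper56.SH.TSM

/-!
# Project RC, SHARP, tail symbol: the entries and the check
-/

set_option autoImplicit false

open Helper49.LT hiding sg

namespace Pool.Agent.Helper56.TS

open Helper76.RC.TPoly Helper54.RC.Fast Helper76.RC.ExpF Helper76.RC.TrD
open Helper49.Cell
open Pool.Agent.Helper75.SH (TSc)

section

variable (R : Rec) (T : TI) (C : TC)

/-! ### numbers -/

def nX : ℕ := Nat.pow 2 C.hp
def nZ : ℕ := Nat.mul (Nat.pow 2 C.hp) (Nat.mul 4 (Nat.pow 2 C.p.h))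
def nP : ℕ := Nat.pow 2 (Nat.mul 2 C.rho)
def nS : ℕ := Nat.mul (Nat.mul 160 (nZ C)) 100000000000000000000
def nml : ℕ := Int.toNat (Int.sub R.m R.lam)
def ncs : ℕ := Int.toNat (Int.sub 900000 R.cs)
def nmu : ℕ := Int.toNat (Int.add R.mu1 R.mu2)
def nm1 : ℕ := Int.toNat R.mu1

/-! ### expressions -/

def eW : Ex := .atm (Rec.wF R C.b)
def eG : Ex := .atm (Rec.fF R C.b)
def eF : Ex := .ad (.sm (Nat.mul 2 (nml R)) (eW R C)) (.cs (Nat.mul (nm1 R) 100000))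
def eW2 : Ex := .ml (eW R C) (eW R C)
def aP : Ex := rP (xP1 C.b C.N C.l1 C.l2)
def cP : Ex := iP (xP1 C.b C.N C.l1 C.l2)
def aM : Ex := rP (xP2 C.b C.N C.l1 C.l2)
def cM : Ex := iP (xP2 C.b C.N C.l1 C.l2)
def dP : Ex := rP (xP3 C.b C.N C.l1 C.l2)
def hP : Ex := iP (xP3 C.b C.N C.l1 C.l2)
def dM : Ex := rP (xP4 C.b C.N C.l1 C.l2)
def hM : Ex := iP (xP4 C.b C.N C.l1 C.l2)

variable (t : ℕ)

def m00 : Ex := .sm 1000000 (.sb (.sb (.ad (.sm (Nat.mul (Nat.mul 1600000 (nZ C)) (ncs R)) (eW R C))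
    (.cs (Nat.mul (Nat.mul 120000000000 (nZ C)) (nmu R)))) (.sm (Nat.mul 800000 (nZ C)) (eF R C)))
    (.ml (eW2 R C) (.ad (.cs (Nat.mul (Nat.mul 16 (nZ C)) C.n2))
      (.sm C.g (.ad (.sm (Nat.mul 8 (nX C)) (aP C)) (.sm (Nat.mul 8 t) (cM C)))))))
def m11 : Ex := .sm 1000000 (.ad (.sb (.sb (.sm (Nat.mul (Nat.mul 1600000 (nZ C)) (ncs R)) (eW R C))
    (.sm (Nat.mul 1200000 (nZ C)) (eF R C))) (.sm (Nat.mul (Nat.mul 16 (nZ C)) C.n3) (eW2 R C)))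
    (.ml (eW2 R C) (.sm C.g (.ad (.sm (Nat.mul 47 (nX C)) (aP C)) (.sm (Nat.mul 8 t) (cM C))))))
def m01 : Ex := .sm 1000000 (.ml (eW2 R C) (.sm C.g (.sb (.sm (Nat.mul 10 t) (aM C)) (.sm (Nat.mul 22 (nX C)) (cP C)))))
def m22 : Ex := .ad (.sm (Nat.mul 24 (nZ C)) (.ml (eG R C) (eF R C))) (.sm 1000000 (.ml (eW2 R C)
    (.sb (.sm (Nat.mul (Nat.mul 16 (nX C)) C.g) (aP C)) (.cs (Nat.mul (Nat.mul 16 (nZ C)) C.nx)))))
def m33 : Ex := .sb (.sm (Nat.mul 8 (nZ C)) (.ml (eG R C) (eF R C))) (.sm 1000000 (.ml (eW2 R C)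
    (.ad (.sm (Nat.mul (Nat.mul 16 (nX C)) C.g) (aP C)) (.cs (Nat.mul (Nat.mul 16 (nZ C)) C.ny)))))
def m23 : Ex := .sm 1000000 (.ml (eW2 R C) (.sm (Nat.mul (Nat.mul 16 (nX C)) C.g) (cP C)))
def m02 : Ex := .sm 1000000 (.ml (eW2 R C) (.sm C.g (.sb (.sm (Nat.mul 8 (nX C)) (dP C)) (.sm (Nat.mul 8 t) (hM C)))))
def m03 : Ex := .sm 1000000 (.ml (eW2 R C) (.sm C.g (.ad (.sm (Nat.mul 8 (nX C)) (hP C)) (.sm (Nat.mul 8 t) (dM C)))))
def m12 : Ex := .sm 1000000 (.ml (eW2 R C) (.sm C.g (.ad (.sm (Nat.mul 16 t) (dM C)) (.sm (Nat.mul 4 (nX C)) (hP C)))))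
def m13 : Ex := .sm 1000000 (.ml (eW2 R C) (.sm C.g (.sb (.sm (Nat.mul 16 t) (hM C)) (.sm (Nat.mul 4 (nX C)) (dP C)))))

def aR (b : ℕ) (e : ℤ × List (ℤ × ℤ)) : Ex := .atm (rF b e)

/-- `2 ^ {2 rho} S (t_i + σ)` -/
def tC (ti : ℕ) : Ex := .cs (Nat.mul (nP C) (Nat.mul (Nat.mul (Nat.mul 160 (nZ C)) 1000000000000000) (Nat.add ti C.sg)))

def e00 : Ex := .sb (.sm (nP C) (m00 R C t)) (.ad (.sm (nS C) (.ml (aR C.b C.r00) (aR C.b C.r00))) (tC C T.t2))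
def e01 : Ex := .sb (.sm (nP C) (m01 R C t)) (.sm (nS C) (.ml (aR C.b C.r00) (aR C.b C.r01)))
def e02 : Ex := .sb (.sm (nP C) (m02 R C t)) (.sm (nS C) (.ml (aR C.b C.r00) (aR C.b C.r02)))
def e03 : Ex := .sb (.sm (nP C) (m03 R C t)) (.sm (nS C) (.ml (aR C.b C.r00) (aR C.b C.r03)))
def e11 : Ex := .sb (.sm (nP C) (m11 R C t)) (.ad (.sm (nS C) (.ad (.ml (aR C.b C.r01) (aR C.b C.r01))
    (.ml (aR C.b C.r11) (aR C.b C.r11)))) (tC C T.t3))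
def e12 : Ex := .sb (.sm (nP C) (m12 R C t)) (.sm (nS C) (.ad (.ml (aR C.b C.r01) (aR C.b C.r02))
    (.ml (aR C.b C.r11) (aR C.b C.r12))))
def e13 : Ex := .sb (.sm (nP C) (m13 R C t)) (.sm (nS C) (.ad (.ml (aR C.b C.r01) (aR C.b C.r03))
    (.ml (aR C.b C.r11) (aR C.b C.r13))))
def e22 : Ex := .sb (.sm (nP C) (m22 R C)) (.ad (.sm (nS C) (.ad (.ad (.ml (aR C.b C.r02) (aR C.b C.r02))
    (.ml (aR C.b C.r12) (aR C.b C.r12))) (.ml (aR C.b C.r22) (aR C.b C.r22)))) (tC C T.tz))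
def e23 : Ex := .sb (.sm (nP C) (m23 R C)) (.sm (nS C) (.ad (.ad (.ml (aR C.b C.r02) (aR C.b C.r03))
    (.ml (aR C.b C.r12) (aR C.b C.r13))) (.ml (aR C.b C.r22) (aR C.b C.r23))))
def e33 : Ex := .sb (.sm (nP C) (m33 R C)) (.ad (.sm (nS C) (.ad (.ad (.ad (.ml (aR C.b C.r03) (aR C.b C.r03))
    (.ml (aR C.b C.r13) (aR C.b C.r13))) (.ml (aR C.b C.r23) (aR C.b C.r23))) (.ml (aR C.b C.r33) (aR C.b C.r33))))
    (tC C T.tz))

def okE (E : Ex) : Bool := bif ok C.b C.r E then Nat.ble (nrF C.b C.r (ev C.b E)) C.e else false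

def okAll : List Ex → Bool
  | [] => true
  | E :: l => bif okE C E then okAll l else false

def okRs : Bool :=
  bif okR C.b C.r C.r00 then bif okR C.b C.r C.r01 then bif okR C.b C.r C.r02 then bif okR C.b C.r C.r03 then
  bif okR C.b C.r C.r11 then bif okR C.b C.r C.r12 then bif okR C.b C.r C.r13 then bif okR C.b C.r C.r22 then
  bif okR C.b C.r C.r23 then okR C.b C.r C.r33
  else false else false else false else false else false else false else false else false else false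

/-- the arithmetic conditions -/
def okN : Bool :=
  decide (R.lam ≤ R.m ∧ R.cs ≤ 900000 ∧ 0 ≤ R.mu1 ∧ 0 ≤ R.mu2 ∧ 0 < R.nu ∧ 2 ≤ T.l0 ∧ 2 ≤ T.L ∧ 2 ≤ T.K ∧ 0 < T.th ∧
    T.ga * R.nu.toNat * T.kap4 ≤ 160000000000 * C.g ∧
    C.g * (T.l0 + 1) * Nat.pow 2 C.p.s + T.dlow * (T.l0 - 1) * Nat.pow 2 C.p.s + C.g * C.dl * (T.l0 - 1) ≤
      C.ag * (T.l0 - 1) * Nat.pow 2 C.p.s ∧
    400000 * T.be + 400000 * R.nu.toNat + 21 * T.kap * R.nu.toNat + 8 * C.ag * (T.L - 1) * R.nu.toNat ≤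
      4 * C.n2 * (T.L - 1) * R.nu.toNat ∧
    200000 * T.L * T.be + 200000 * R.nu.toNat + 75 * T.kap * R.nu.toNat + 49 * C.ag * (T.L - 1) * R.nu.toNat ≤
      8 * C.n3 * (T.L - 1) * R.nu.toNat ∧
    2 * T.kap + 2 * T.th + 2 * C.ag * (T.K - 1) ≤ C.nx * (T.K - 1) ∧
    2 * T.kap * T.th + 20000000000 + 2 * C.ag * (T.K - 1) * T.th ≤ C.ny * (T.K - 1) * T.th ∧
    C.t * C.t ≤ 3 * Nat.pow 4 C.hp ∧ 3 * Nat.pow 4 C.hp ≤ (C.t + 1) * (C.t + 1) ∧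
    4 * C.e ≤ nP C * (160 * nZ C * 1000000000000000) * C.sg)

/-- **THE CHECK** -/
def okTS : Bool :=
  bif okN R T C then
    bif Nat.ble C.r (Nat.succ C.b) then
      bif Rec.okT R C.b C.r then
        bif okV C.p true R.D1 C.N C.dl C.l1 then
          bif okV C.p false R.D2 C.N C.dl C.l2 then
            bif okL C.b C.N C.l1 then
              bif okL C.b C.N C.l2 then
                bif okRs C then
                  okAll C [e00 R T C C.t, e00 R T C (Nat.succ C.t), e01 R C C.t, e01 R C (Nat.succ C.t),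
                    e02 R C C.t, e02 R C (Nat.succ C.t), e03 R C C.t, e03 R C (Nat.succ C.t),
                    e11 R T C C.t, e11 R T C (Nat.succ C.t), e12 R C C.t, e12 R C (Nat.succ C.t),
                    e13 R C C.t, e13 R C (Nat.succ C.t), e22 R T C, e23 R C, e33 R T C]
                else false
              else false
            else false
          else false
        else false
      else false
    else false
  else false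

end

/-! ### real forms -/

/-- the data at a point -/
structure Pt where
  w : ℝ
  f : ℝ
  F : ℝ
  cs : ℝ
  mu : ℝ
  g : ℝ
  n2 : ℝ
  n3 : ℝ
  nx : ℝ
  ny : ℝ
  v : Vs

namespace Pt

variable (a : Pt) (s : ℝ)

noncomputable def M00 : ℝ := (9 - a.cs) * a.w - a.F + 3 / 4 * a.mu
  - a.w ^ 2 * (a.n2 + a.g * ((a.v.p1 + a.v.p1' + (a.v.p2 + a.v.p2')) / 4 + s * (a.v.q1 + a.v.q1' - (a.v.q2 + a.v.q2')) / 4))
noncomputable def M11 : ℝ := (9 - a.cs) * a.w - 3 / 2 * a.F - a.w ^ 2 * a.n3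
  + a.w ^ 2 * (a.g * (47 * (a.v.p1 + a.v.p1' + (a.v.p2 + a.v.p2')) / 32 + s * (a.v.q1 + a.v.q1' - (a.v.q2 + a.v.q2')) / 4))
noncomputable def M01 : ℝ := a.w ^ 2 * (a.g * (5 * s * (a.v.p1 + a.v.p1' - (a.v.p2 + a.v.p2')) / 16
  - 11 * (a.v.q1 + a.v.q1' + (a.v.q2 + a.v.q2')) / 16))
noncomputable def M22 : ℝ := 3 / 2 * a.f * a.F - a.w ^ 2 * a.nx + a.w ^ 2 * (a.g * (a.v.p1 + a.v.p1' + (a.v.p2 + a.v.p2')) / 2)
noncomputable def M33 : ℝ := 1 / 2 * a.f * a.F - a.w ^ 2 * a.ny - a.w ^ 2 * (a.g * (a.v.p1 + a.v.p1' + (a.v.p2 + a.v.p2')) / 2)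
noncomputable def M23 : ℝ := a.w ^ 2 * (a.g * (a.v.q1 + a.v.q1' + (a.v.q2 + a.v.q2')) / 2)
noncomputable def M02 : ℝ := a.w ^ 2 * (a.g * ((a.v.p1 - a.v.p1' + (a.v.p2 - a.v.p2')) / 4
  - s * (a.v.q1 - a.v.q1' - (a.v.q2 - a.v.q2')) / 4))
noncomputable def M03 : ℝ := a.w ^ 2 * (a.g * ((a.v.q1 - a.v.q1' + (a.v.q2 - a.v.q2')) / 4
  + s * (a.v.p1 - a.v.p1' - (a.v.p2 - a.v.p2')) / 4))
noncomputable def M12 : ℝ := a.w ^ 2 * (a.g * (s * (a.v.p1 - a.v.p1' - (a.v.p2 - a.v.p2')) / 2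
  + (a.v.q1 - a.v.q1' + (a.v.q2 - a.v.q2')) / 8))
noncomputable def M13 : ℝ := a.w ^ 2 * (a.g * (s * (a.v.q1 - a.v.q1' - (a.v.q2 - a.v.q2')) / 2
  - (a.v.p1 - a.v.p1' + (a.v.p2 - a.v.p2')) / 8))

end Pt

/-- convexity in `s` -/
theorem conv (A B : ℝ) {e t τ : ℝ} (h1 : |A + B * t| ≤ e) (h2 : |A + B * (t + 1)| ≤ e) (h3 : t ≤ τ) (h4 : τ ≤ t + 1) :
    |A + B * τ| ≤ e := by
  have h5 : A + B * τ = (t + 1 - τ) * (A + B * t) + (τ - t) * (A + B * (t + 1)) := by ring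
  rw [h5]
  have a1 : 0 ≤ t + 1 - τ := by linarith
  have a2 : 0 ≤ τ - t := by linarith
  calc |(t + 1 - τ) * (A + B * t) + (τ - t) * (A + B * (t + 1))|
      ≤ |(t + 1 - τ) * (A + B * t)| + |(τ - t) * (A + B * (t + 1))| := abs_add_le _ _
    _ = (t + 1 - τ) * |A + B * t| + (τ - t) * |A + B * (t + 1)| := by rw [abs_mul, abs_mul, abs_of_nonneg a1, abs_of_nonneg a2]
    _ ≤ (t + 1 - τ) * e + (τ - t) * e := by gcongr
    _ = e := by ring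

theorem offd {E e a b : ℝ} (h : |E| ≤ e) : -(e * (a ^ 2 + b ^ 2)) ≤ 2 * E * (a * b) := by
  obtain ⟨h1, h2⟩ := abs_le.1 h
  nlinarith [sq_nonneg (a + b), sq_nonneg (a - b), mul_nonneg (by linarith : 0 ≤ e + E) (sq_nonneg (a + b)),
    mul_nonneg (by linarith : 0 ≤ e - E) (sq_nonneg (a - b))]

theorem diagd {E e a : ℝ} (h : |E| ≤ e) : -(e * a ^ 2) ≤ E * a ^ 2 := by
  obtain ⟨h1, h2⟩ := abs_le.1 h
  nlinarith [mul_nonneg (by linarith : 0 ≤ e + E) (sq_nonneg a)]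

end Pool.Agent.Helper56.TS
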